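import Pool.Agent.Work.MP_bec1e1_pr_helper73.A3

/-!
# Block A: random columns lose a constant
-/

open Finset BigOperators Filter
open scoped Classical

namespace Pool.Agent.LCS13

noncomputable section

theorem tendsto_log_pow (n : ℕ) {s : ℝ} (hs : 0 < s) :
    Tendsto (fun k : ℕ => Real.log k ^ n * (k : ℝ) ^ (-s)) atTop (nhds 0) := by
  have h1 := isLittleO_log_rpow_rpow_atTop (n : ℝ) hs
  have h2 := h1.tendsto_div_nhds_zero
  have h3 := h2.comp tendsto_natCast_atTop_atTop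
  refine h3.congr fun k => ?_
  simp only [Function.comp]
  rw [Real.rpow_natCast, Real.rpow_neg (Nat.cast_nonneg k), div_eq_mul_inv]

theorem tendsto_const_inv (c : ℝ) : Tendsto (fun k : ℕ => c * (1 / (k : ℝ))) atTop (nhds 0) := by
  have := (tendsto_one_div_atTop_nhds_zero_nat (𝕜 := ℝ)).const_mul c
  simpa using this

/-- The error term divided by `k`. -/
theorem tendsto_err (c1 : ℝ) : Tendsto (fun k : ℕ => (1 / c1 ^ 2 + 1 / c1) * (1 / (k : ℝ)) +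
    4 * (Real.log k ^ 4 * (k : ℝ) ^ (-(1 / 6) : ℝ)) + 2 * (1 / (k : ℝ)) +
    (1 / c1) * (2 * (Real.log k ^ 2 * (k : ℝ) ^ (-(1 / 6) : ℝ)) + 1 * (1 / (k : ℝ)))) atTop
    (nhds 0) := by
  have h1 := tendsto_const_inv (1 / c1 ^ 2 + 1 / c1)
  have h2 := (tendsto_log_pow 4 (s := 1 / 6) (by norm_num)).const_mul 4
  have h3 := tendsto_const_inv 2
  have h4 := (tendsto_log_pow 2 (s := 1 / 6) (by norm_num)).const_mul 2
  have h5 := tendsto_const_inv 1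
  have h6 := (h4.add h5).const_mul (1 / c1)
  have h7 := ((h1.add h2).add h3).add h6
  simpa using h7

theorem pow_sub_le_exp {ρ : ℝ} (h1 : ρ ≤ 1) (m : ℕ) : (1 - ρ) ^ m ≤ Real.exp (-(ρ * m)) := by
  have h2 : 1 - ρ ≤ Real.exp (-ρ) := by
    have := Real.add_one_le_exp (-ρ)
    linarith
  calc (1 - ρ) ^ m ≤ (Real.exp (-ρ)) ^ m := pow_le_pow_left₀ (by linarith) h2 m
    _ = Real.exp (-(ρ * m)) := by
      rw [← Real.exp_nat_mul]
      congr 1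
      ring

theorem stmt_A (hTail : Stmt_LawTail) (hMean : Stmt_LawMean) (hPairs : Stmt_LawPairs)
    (hGeo : Stmt_Geo) (hT : Stmt_Tail) (hQ : Stmt_Q) : Stmt_A := by
  intro c1 c2 hc1 hc2
  refine ⟨1 / (4 * c2 ^ 2), by positivity, ?_⟩
  have ev1 := hT c1 c2 hc1 hc2
  have ev2 := hQ c1 c2 hc1 hc2
  have ev3 : ∀ᶠ k : ℕ in atTop, (1 / c1 ^ 2 + 1 / c1) * (1 / (k : ℝ)) +
    4 * (Real.log k ^ 4 * (k : ℝ) ^ (-(1 / 6) : ℝ)) + 2 * (1 / (k : ℝ)) +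
    (1 / c1) * (2 * (Real.log k ^ 2 * (k : ℝ) ^ (-(1 / 6) : ℝ)) + 1 * (1 / (k : ℝ))) <
      1 / (4 * c2 ^ 2) := (tendsto_err c1).eventually (gt_mem_nhds (by positivity))
  have ev4 : ∀ᶠ k : ℕ in atTop, Real.log k ^ 2 * (k : ℝ) ^ (-(1 / 2) : ℝ) < 1 / 2 :=
    (tendsto_log_pow 2 (s := 1 / 2) (by norm_num)).eventually (gt_mem_nhds (by norm_num))
  have ev5 : ∀ᶠ k : ℕ in atTop, 14 / c1 ≤ Real.log k :=
    (Real.tendsto_log_atTop.comp tendsto_natCast_atTop_atTop).eventually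
      (eventually_ge_atTop (14 / c1))
  have ev5' : ∀ᶠ k : ℕ in atTop, (1 : ℝ) ≤ Real.log k :=
    (Real.tendsto_log_atTop.comp tendsto_natCast_atTop_atTop).eventually
      (eventually_ge_atTop 1)
  have ev6 : ∀ᶠ k : ℕ in atTop, (16 * c2) ^ 2 + 1 ≤ (k : ℝ) :=
    tendsto_natCast_atTop_atTop.eventually (eventually_ge_atTop ((16 * c2) ^ 2 + 1))
  filter_upwards [ev1, ev2, ev3, ev4, ev5, ev5', ev6] with k hT' hQ' he4 he5 he6 he6' he7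
  intro ρ hρ1 hρ2 t N hkN hN6 htN
  have hk1R : (1 : ℝ) ≤ k := by nlinarith [sq_nonneg (16 * c2)]
  have hk : 0 < k := by
    have : (0 : ℝ) < k := by linarith
    exact_mod_cast this
  have hkR : (0 : ℝ) < k := by linarith
  have hsk : 0 < √(k : ℝ) := Real.sqrt_pos.2 hkR
  have hsk2 : √(k : ℝ) * √(k : ℝ) = k := Real.mul_self_sqrt hkR.le
  have hsk1 : 1 ≤ √(k : ℝ) := by
    rw [show (1 : ℝ) = √1 by simp]
    exact Real.sqrt_le_sqrt hk1R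
  have hρ0 : 0 < ρ := by
    by_contra h
    have : ρ * √(k : ℝ) ≤ 0 := mul_nonpos_of_nonpos_of_nonneg (by linarith) hsk.le
    linarith
  have h16 : 16 * c2 ≤ √(k : ℝ) := by
    apply Real.le_sqrt_of_sq_le
    linarith
  have hρ16 : ρ ≤ 1 / 16 := by
    have h2 : 16 * (ρ * √(k : ℝ)) ≤ √(k : ℝ) := by linarith
    have h3 : (16 * ρ) * √(k : ℝ) ≤ 1 * √(k : ℝ) := by linarith
    have := le_of_mul_le_mul_right h3 hsk
    linarith
  have hρlt : ρ < 1 := by linarith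
  set x : ℝ := (1 - ρ) / ρ with hx
  set L : ℝ := Real.log k with hL
  have hx0 : 0 ≤ x := div_nonneg (by linarith) hρ0.le
  have hxρ : x * ρ = 1 - ρ := by rw [hx]; field_simp
  -- upper bound for x
  have hxu : x ≤ √(k : ℝ) / c1 := by
    rw [le_div_iff₀ hc1]
    have : x * c1 ≤ x * (ρ * √(k : ℝ)) := mul_le_mul_of_nonneg_left hρ1 hx0
    have h2 : x * (ρ * √(k : ℝ)) = (1 - ρ) * √(k : ℝ) := by rw [← mul_assoc, hxρ]
    nlinarith
  -- lower bound for x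
  have hxl : (15 / 16) * √(k : ℝ) ≤ x * c2 := by
    have : x * (ρ * √(k : ℝ)) ≤ x * c2 := mul_le_mul_of_nonneg_left hρ2 hx0
    have h2 : x * (ρ * √(k : ℝ)) = (1 - ρ) * √(k : ℝ) := by rw [← mul_assoc, hxρ]
    nlinarith
  have hx2 : 7 / 8 * k ≤ x ^ 2 * c2 ^ 2 := by
    have h2 : ((15 / 16) * √(k : ℝ)) ^ 2 ≤ (x * c2) ^ 2 :=
      pow_le_pow_left₀ (by positivity) hxl 2
    have h3 : ((15 / 16) * √(k : ℝ)) ^ 2 = 225 / 256 * k := by
      rw [mul_pow, sq (√(k : ℝ)), hsk2]; norm_num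
    nlinarith
  have hx2' : 7 / 8 * (k / c2 ^ 2) ≤ x ^ 2 := by
    rw [← mul_div_assoc, div_le_iff₀ (by positivity)]
    exact hx2
  -- m
  set m : ℕ := ⌈√(k : ℝ) * L ^ 2⌉₊ with hm
  have hm1 : √(k : ℝ) * L ^ 2 ≤ m := Nat.le_ceil _
  have hkL1 : 1 ≤ √(k : ℝ) * L ^ 2 := by nlinarith
  have hm2 : (m : ℝ) ≤ 2 * (√(k : ℝ) * L ^ 2) := by
    have := Nat.ceil_lt_add_one (a := √(k : ℝ) * L ^ 2) (by positivity)
    linarith
  have hmk : (m : ℝ) ≤ k := by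
    have h2 : √(k : ℝ) * L ^ 2 = k * (L ^ 2 * (k : ℝ) ^ (-(1 / 2) : ℝ)) := by
      rw [Real.rpow_neg hkR.le, ← Real.sqrt_eq_rpow]
      field_simp
      rw [sq, hsk2]
    have h3 : k * (L ^ 2 * (k : ℝ) ^ (-(1 / 2) : ℝ)) ≤ k * (1 / 2) :=
      mul_le_mul_of_nonneg_left he5.le hkR.le
    linarith
  -- tail
  have htail : (N : ℝ) ^ 2 * (1 - ρ) ^ m ≤ 1 / (k : ℝ) := by
    have h2 : (1 - ρ) ^ m ≤ Real.exp (-(14 * L)) := by
      refine (pow_sub_le_exp hρlt.le m).trans (Real.exp_le_exp.2 ?_)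
      have h3 : c1 * L ^ 2 ≤ ρ * m := by
        calc c1 * L ^ 2 ≤ (ρ * √(k : ℝ)) * L ^ 2 := mul_le_mul_of_nonneg_right hρ1 (sq_nonneg _)
          _ = ρ * (√(k : ℝ) * L ^ 2) := by ring
          _ ≤ ρ * m := mul_le_mul_of_nonneg_left hm1 hρ0.le
      have h4 : 14 ≤ c1 * L := by
        rw [div_le_iff₀ hc1] at he6
        linarith
      nlinarith
    have h5 : Real.exp (-(14 * L)) = 1 / (k : ℝ) ^ 14 := by
      rw [Real.exp_neg, hL, show (14 : ℝ) * Real.log k = ((14 : ℕ) : ℝ) * Real.log k by norm_num,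
        Real.exp_nat_mul, Real.exp_log hkR, one_div]
    have h6 : (N : ℝ) ^ 2 ≤ (k : ℝ) ^ 12 := by
      have : (N : ℝ) ≤ (k : ℝ) ^ 6 := by exact_mod_cast hN6
      calc (N : ℝ) ^ 2 ≤ ((k : ℝ) ^ 6) ^ 2 := pow_le_pow_left₀ (by positivity) this 2
        _ = (k : ℝ) ^ 12 := by ring
    calc (N : ℝ) ^ 2 * (1 - ρ) ^ m ≤ (k : ℝ) ^ 12 * (1 / (k : ℝ) ^ 14) := by
          refine mul_le_mul h6 (h2.trans h5.le) (pow_nonneg (by linarith) _) (by positivity)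
      _ = 1 / (k : ℝ) * (1 / (k : ℝ)) := by field_simp
      _ ≤ 1 / (k : ℝ) * 1 := by
          refine mul_le_mul_of_nonneg_left ?_ (by positivity)
          rw [div_le_one hkR]
          exact hk1R
      _ = 1 / (k : ℝ) := by ring
  -- the events
  have hPZ : E2 (Ωa := Fin t → Fin k) (Ωb := Fin N → Fin k) ρ N (fun a b A =>
      ind (N ∈ ZZ (uu (wn a) (wn b) t) A 0 N)) ≤ 1 / (k : ℝ) ^ 20 := by
    rw [← E2_swap]
    have : Nonempty (Fin k) := ⟨⟨0, hk⟩⟩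
    apply Finset.expect_le Finset.univ_nonempty
    intro b _
    refine le_trans ?_ (hT' ρ hρ1 hρ2 t N hkN hN6 htN (wn b))
    refine Finset.expect_le_expect fun a _ => ES_mono hρ0.le hρlt.le fun A _ => ?_
    apply ind_mono
    intro h
    exact ⟨N, h, by omega⟩
  have hPQ := hQ' ρ hρ1 hρ2 t N hkN hN6 htN
  have hH8 : 8 * (k / 8) ≤ k := by omega
  have hmain := main_ineq hTail hMean hPairs hGeo hk hρ0 hρlt (k / 8) hH8 m hPZ hPQ
  have hD : 𝔼 b : Fin N → Fin k, del k (wn b) t N ρ =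
      E2 (Ωa := Fin t → Fin k) (Ωb := Fin N → Fin k) ρ N dA := by
    rw [← E2_swap]
    rfl
  rw [hD]
  set D : ℝ := E2 (Ωa := Fin t → Fin k) (Ωb := Fin N → Fin k) ρ N dA with hDdef
  have hD0 : 0 ≤ D := E2_nonneg hρ0.le hρlt.le fun a b A _ => dA_nonneg a b A
  -- bounds of the error terms
  have b1 : 1 / (k : ℝ) ^ 20 * (x ^ 2 + N * x) ≤ k * ((1 / c1 ^ 2 + 1 / c1) * (1 / (k : ℝ))) := by
    have h2 : x ^ 2 ≤ k / c1 ^ 2 := by
      calc x ^ 2 ≤ (√(k : ℝ) / c1) ^ 2 := pow_le_pow_left₀ hx0 hxu 2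
        _ = k / c1 ^ 2 := by rw [div_pow, sq (√(k : ℝ)), hsk2]
    have h3 : x ≤ k / c1 := hxu.trans (by
      apply div_le_div_of_nonneg_right _ hc1.le
      nlinarith)
    have h4 : (N : ℝ) ≤ (k : ℝ) ^ 6 := by exact_mod_cast hN6
    have h5 : x ^ 2 + N * x ≤ (k : ℝ) ^ 20 * (1 / c1 ^ 2 + 1 / c1) := by
      have e1 : (k : ℝ) ≤ (k : ℝ) ^ 20 := le_self_pow₀ hk1R (by norm_num)
      have e2 : (k : ℝ) ^ 6 * k ≤ (k : ℝ) ^ 20 := by
        calc (k : ℝ) ^ 6 * k = (k : ℝ) ^ 7 := by ring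
          _ ≤ (k : ℝ) ^ 20 := pow_le_pow_right₀ hk1R (by norm_num)
      have e3 : x ^ 2 ≤ (k : ℝ) ^ 20 / c1 ^ 2 :=
        h2.trans (div_le_div_of_nonneg_right e1 (by positivity))
      have e4 : N * x ≤ (k : ℝ) ^ 20 / c1 := by
        calc N * x ≤ (k : ℝ) ^ 6 * (k / c1) := mul_le_mul h4 h3 hx0 (by positivity)
          _ = ((k : ℝ) ^ 6 * k) / c1 := by ring
          _ ≤ (k : ℝ) ^ 20 / c1 := div_le_div_of_nonneg_right e2 hc1.le
      calc x ^ 2 + N * x ≤ (k : ℝ) ^ 20 / c1 ^ 2 + (k : ℝ) ^ 20 / c1 := add_le_add e3 e4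
        _ = (k : ℝ) ^ 20 * (1 / c1 ^ 2 + 1 / c1) := by ring
    calc 1 / (k : ℝ) ^ 20 * (x ^ 2 + N * x) ≤
        1 / (k : ℝ) ^ 20 * ((k : ℝ) ^ 20 * (1 / c1 ^ 2 + 1 / c1)) :=
          mul_le_mul_of_nonneg_left h5 (by positivity)
      _ = k * ((1 / c1 ^ 2 + 1 / c1) * (1 / (k : ℝ))) := by field_simp
  set P : ℝ := (k : ℝ) ^ (-(1 / 6) : ℝ) with hP
  have hP0 : 0 ≤ P := Real.rpow_nonneg hkR.le _
  have b2 : (m : ℝ) ^ 2 * P ≤ k * (4 * (L ^ 4 * P)) := by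
    have h2 : (m : ℝ) ^ 2 ≤ 4 * (k * L ^ 4) := by
      calc (m : ℝ) ^ 2 ≤ (2 * (√(k : ℝ) * L ^ 2)) ^ 2 := pow_le_pow_left₀ (by positivity) hm2 2
        _ = 4 * ((√(k : ℝ) * √(k : ℝ)) * L ^ 4) := by ring
        _ = 4 * (k * L ^ 4) := by rw [hsk2]
    calc (m : ℝ) ^ 2 * P ≤ 4 * (k * L ^ 4) * P := mul_le_mul_of_nonneg_right h2 hP0
      _ = k * (4 * (L ^ 4 * P)) := by ring
  have b3 : 2 * ((N : ℝ) ^ 2 * (1 - ρ) ^ m) ≤ k * (2 * (1 / (k : ℝ))) := by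
    have h2 : 2 * (1 / (k : ℝ)) ≤ k * (2 * (1 / (k : ℝ))) := by
      have : 0 ≤ 2 * (1 / (k : ℝ)) := by positivity
      nlinarith
    linarith
  have b4 : x * (m * P + (N : ℝ) ^ 2 * (1 - ρ) ^ m) ≤
      k * ((1 / c1) * (2 * (L ^ 2 * P) + 1 * (1 / (k : ℝ)))) := by
    have h2 : m * P ≤ √(k : ℝ) * (2 * (L ^ 2 * P)) := by
      calc m * P ≤ 2 * (√(k : ℝ) * L ^ 2) * P := mul_le_mul_of_nonneg_right hm2 hP0
        _ = √(k : ℝ) * (2 * (L ^ 2 * P)) := by ring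
    have h3 : (N : ℝ) ^ 2 * (1 - ρ) ^ m ≤ √(k : ℝ) * (1 * (1 / (k : ℝ))) := by
      refine htail.trans ?_
      have : 0 ≤ 1 / (k : ℝ) := by positivity
      nlinarith
    calc x * (m * P + (N : ℝ) ^ 2 * (1 - ρ) ^ m) ≤
        (√(k : ℝ) / c1) * (√(k : ℝ) * (2 * (L ^ 2 * P)) + √(k : ℝ) * (1 * (1 / (k : ℝ)))) := by
          refine mul_le_mul hxu (add_le_add h2 h3) ?_ (by positivity)
          have : 0 ≤ (1 - ρ) ^ m := pow_nonneg (by linarith) _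
          positivity
      _ = (√(k : ℝ) * √(k : ℝ)) * ((1 / c1) * (2 * (L ^ 2 * P) + 1 * (1 / (k : ℝ)))) := by ring
      _ = k * ((1 / c1) * (2 * (L ^ 2 * P) + 1 * (1 / (k : ℝ)))) := by rw [hsk2]
  have b5 : k * ((1 / c1 ^ 2 + 1 / c1) * (1 / (k : ℝ)) +
    4 * (L ^ 4 * P) + 2 * (1 / (k : ℝ)) +
    (1 / c1) * (2 * (L ^ 2 * P) + 1 * (1 / (k : ℝ)))) ≤ k * (1 / (4 * c2 ^ 2)) :=
    mul_le_mul_of_nonneg_left he4.le hkR.le
  have b6 : k * (1 / (4 * c2 ^ 2)) = 1 / 4 * (k / c2 ^ 2) := by field_simp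
  have hfin : 1 / 2 * (k / c2 ^ 2) ≤ D * (k + m) := by
    refine le_trans ?_ hmain
    linarith
  have hfin2 : D * (k + m) ≤ D * (2 * k) := mul_le_mul_of_nonneg_left (by linarith) hD0
  have hfin3 : (1 / (4 * c2 ^ 2)) * (2 * k) ≤ D * (2 * k) := by
    refine le_trans (le_of_eq ?_) (hfin.trans hfin2)
    field_simp
    norm_num
  exact le_of_mul_le_mul_right hfin3 (by positivity)

end

end Pool.Agent.LCS13
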