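import Pool.Agent.Work.MP_bec1e1_pr_helper73.E2

/-!
# Block A, part 2: counting and exchange
-/

open Finset BigOperators
open scoped Classical

namespace Pool.Agent.LCS13

noncomputable section

/-! ### Counting -/

/-- Number of repeated letters. -/
theorem card_rep {α : Type*} [DecidableEq α] (J : Finset ℕ) (f : ℕ → α) :
    #{j ∈ J | ∃ i ∈ J, i < j ∧ f i = f j} + #(J.image f) = #J := by
  have h1 := Finset.card_filter_add_card_filter_not (s := J)
    (fun j => ∃ i ∈ J, i < j ∧ f i = f j)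
  have h2 : J.image f = ({j ∈ J | ¬ ∃ i ∈ J, i < j ∧ f i = f j}).image f := by
    apply Finset.Subset.antisymm
    · intro x hx
      obtain ⟨j, hj, rfl⟩ := Finset.mem_image.1 hx
      have hne : ({i ∈ J | f i = f j}).Nonempty := ⟨j, by simp [hj]⟩
      obtain ⟨i, hi, hmin⟩ := Finset.exists_min_image _ id hne
      simp only [Finset.mem_filter, id] at hi hmin
      refine Finset.mem_image.2 ⟨i, ?_, hi.2⟩
      simp only [Finset.mem_filter]
      refine ⟨hi.1, ?_⟩
      rintro ⟨i', hi', hlt, he⟩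
      have := hmin i' ⟨hi', he.trans hi.2⟩
      omega
    · exact Finset.image_subset_image (Finset.filter_subset _ _)
  have h3 : #(({j ∈ J | ¬ ∃ i ∈ J, i < j ∧ f i = f j}).image f) =
      #{j ∈ J | ¬ ∃ i ∈ J, i < j ∧ f i = f j} := by
    apply Finset.card_image_of_injOn
    intro x hx y hy hxy
    simp only [Finset.coe_filter, Set.mem_ofPred_eq] at hx hy
    rcases lt_trichotomy x y with h | h | h
    · exact absurd ⟨x, hx.1, h, hxy⟩ hy.2
    · exact h
    · exact absurd ⟨y, hy.1, h, hxy.symm⟩ hx.2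
  rw [h2, h3]
  exact h1

theorem card_sub_image {α : Type*} [DecidableEq α] {B J : Finset ℕ} (hB : B ⊆ J) (f : ℕ → α) (S : Finset α) :
    (#B : ℝ) - #{i ∈ B | f i ∈ S} - ((#J : ℝ) - #(J.image f)) ≤ #(B.image f \ S) := by
  have h1 : #{i ∈ B | f i ∈ S} + #{i ∈ B | ¬ f i ∈ S} = #B :=
    Finset.card_filter_add_card_filter_not _
  have h2 : #(({i ∈ B | ¬ f i ∈ S}).image f) ≤ #(B.image f \ S) := by
    apply Finset.card_le_card
    intro x hx
    obtain ⟨i, hi, rfl⟩ := Finset.mem_image.1 hx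
    rw [Finset.mem_filter] at hi
    rw [Finset.mem_sdiff]
    exact ⟨Finset.mem_image_of_mem f hi.1, hi.2⟩
  have h3 : J.image f ⊆ ({i ∈ B | ¬ f i ∈ S}).image f ∪ (J \ {i ∈ B | ¬ f i ∈ S}).image f := by
    intro x hx
    obtain ⟨i, hi, rfl⟩ := Finset.mem_image.1 hx
    rw [Finset.mem_union]
    by_cases h : i ∈ ({i ∈ B | ¬ f i ∈ S} : Finset ℕ)
    · exact Or.inl (Finset.mem_image_of_mem f h)
    · exact Or.inr (Finset.mem_image_of_mem f (Finset.mem_sdiff.2 ⟨hi, h⟩))
  have h4 := (Finset.card_le_card h3).trans (Finset.card_union_le _ _)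
  have h5 : #((J \ {i ∈ B | ¬ f i ∈ S}).image f) ≤ #J - #{i ∈ B | ¬ f i ∈ S} := by
    refine Finset.card_image_le.trans (le_of_eq ?_)
    exact Finset.card_sdiff_of_subset ((Finset.filter_subset _ _).trans hB)
  have h6 : #{i ∈ B | ¬ f i ∈ S} ≤ #J :=
    Finset.card_le_card ((Finset.filter_subset _ _).trans hB)
  have h7 : #(J.image f) + #{i ∈ B | ¬ f i ∈ S} ≤ #(B.image f \ S) + #J := by omega
  have h8 : (#B : ℝ) = #{i ∈ B | f i ∈ S} + #{i ∈ B | ¬ f i ∈ S} := by exact_mod_cast h1.symm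
  have h9 : (#(J.image f) : ℝ) + #{i ∈ B | ¬ f i ∈ S} ≤ #(B.image f \ S) + #J := by
    exact_mod_cast h7
  linarith

theorem sum_below (J : Finset ℕ) :
    ∑ j ∈ J, (#{i ∈ J | i < j} : ℝ) = (#J : ℝ) * (#J - 1) / 2 := by
  have h1 : ∑ j ∈ J, (#{i ∈ J | i < j} : ℝ) = ∑ j ∈ J, (#{i ∈ J | j < i} : ℝ) := by
    simp only [Finset.card_filter, Nat.cast_sum]
    rw [Finset.sum_comm]
  have h2 : ∀ j ∈ J, (#{i ∈ J | i < j} : ℝ) + #{i ∈ J | j < i} + 1 = #J := by
    intro j hj
    have e1 := Finset.card_filter_add_card_filter_not (s := J) (fun i => i < j)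
    have e2 : #{i ∈ J | ¬ i < j} = #{i ∈ J | j < i} + 1 := by
      have : ({i ∈ J | ¬ i < j} : Finset ℕ) = insert j {i ∈ J | j < i} := by
        ext x
        simp only [Finset.mem_filter, Finset.mem_insert]
        constructor
        · rintro ⟨h1, h2⟩
          by_cases h : x = j
          · exact Or.inl h
          · exact Or.inr ⟨h1, by omega⟩
        · rintro (rfl | ⟨h1, h2⟩)
          · exact ⟨hj, by omega⟩
          · exact ⟨h1, by omega⟩
      rw [this, Finset.card_insert_of_notMem (by simp)]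
    have : #{i ∈ J | i < j} + #{i ∈ J | j < i} + 1 = #J := by omega
    exact_mod_cast this
  have h3 := Finset.sum_congr rfl h2
  rw [Finset.sum_add_distrib, Finset.sum_add_distrib, ← h1] at h3
  simp only [Finset.sum_const, nsmul_eq_mul, mul_one] at h3
  linarith

theorem comb_main {α : Type*} [DecidableEq α] (J : Finset ℕ) (f : ℕ → α) (S : Finset α) (O : ℕ → Prop) :
    (#J : ℝ) * (#J - 1) / 2 - (#J : ℝ) ^ 2 * ind (∃ j ∈ J, O j) -
      ∑ i ∈ J, ind (f i ∈ S) * (#{j ∈ J | i < j} : ℝ) - (#J : ℝ) * ((#J : ℝ) - #(J.image f)) ≤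
    ∑ j ∈ J, ind (¬ O j) * (#(({i ∈ J | i < j}).image f \ S) : ℝ) := by
  have hd : (0 : ℝ) ≤ (#J : ℝ) - #(J.image f) := by
    have := Finset.card_image_le (s := J) (f := f)
    have : (#(J.image f) : ℝ) ≤ #J := by exact_mod_cast this
    linarith
  have hJ0 : (0 : ℝ) ≤ #J := by positivity
  have hs : 0 ≤ ∑ i ∈ J, ind (f i ∈ S) * (#{j ∈ J | i < j} : ℝ) :=
    Finset.sum_nonneg fun i _ => mul_nonneg (ind_nonneg _) (by positivity)
  by_cases hO : ∃ j ∈ J, O j
  · rw [ind_true hO]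
    have h1 : (0 : ℝ) ≤ ∑ j ∈ J, ind (¬ O j) * (#(({i ∈ J | i < j}).image f \ S) : ℝ) :=
      Finset.sum_nonneg fun i _ => mul_nonneg (ind_nonneg _) (by positivity)
    nlinarith
  · rw [ind_false hO]
    have h1 : ∑ j ∈ J, ((#{i ∈ J | i < j} : ℝ) - #{i ∈ {i ∈ J | i < j} | f i ∈ S} -
        ((#J : ℝ) - #(J.image f))) ≤
        ∑ j ∈ J, ind (¬ O j) * (#(({i ∈ J | i < j}).image f \ S) : ℝ) := by
      apply Finset.sum_le_sum
      intro j hj
      rw [ind_true (fun h => hO ⟨j, hj, h⟩), one_mul]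
      exact card_sub_image (Finset.filter_subset _ _) f S
    have h2 : ∑ j ∈ J, (#{i ∈ {i ∈ J | i < j} | f i ∈ S} : ℝ) =
        ∑ i ∈ J, ind (f i ∈ S) * (#{j ∈ J | i < j} : ℝ) := by
      have e1 : ∀ j ∈ J, (#{i ∈ {i ∈ J | i < j} | f i ∈ S} : ℝ) =
          ∑ i ∈ J, if i < j then ind (f i ∈ S) else 0 := by
        intro j _
        rw [Finset.filter_filter, Finset.card_filter]
        push_cast
        refine Finset.sum_congr rfl fun i _ => ?_
        by_cases hi : i < j <;> by_cases hS : f i ∈ S <;> simp [hi, hS, ind]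
      have e2 : ∀ i ∈ J, ind (f i ∈ S) * (#{j ∈ J | i < j} : ℝ) =
          ∑ j ∈ J, if i < j then ind (f i ∈ S) else 0 := by
        intro i _
        rw [Finset.card_filter]
        push_cast
        rw [Finset.mul_sum]
        refine Finset.sum_congr rfl fun j _ => ?_
        by_cases hi : i < j <;> simp [hi]
      rw [Finset.sum_congr rfl e1, Finset.sum_congr rfl e2, Finset.sum_comm]
    rw [Finset.sum_sub_distrib, Finset.sum_sub_distrib, sum_below, h2] at h1
    simp only [Finset.sum_const, nsmul_eq_mul] at h1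
    linarith

/-- Sums over a subset of `range N`. -/
theorem sum_eq_fin {N : ℕ} {J : Finset ℕ} (hJ : J ⊆ range N) (g : ℕ → ℝ) :
    ∑ j ∈ J, g j = ∑ j : Fin N, ind ((j : ℕ) ∈ J) * g j := by
  rw [Fin.sum_univ_eq_sum_range (fun j => ind (j ∈ J) * g j) N]
  have : ∀ j ∈ range N, ind (j ∈ J) * g j = if j ∈ J then g j else 0 := by
    intro j _
    by_cases h : j ∈ J <;> simp [ind, h]
  rw [Finset.sum_congr rfl this, Finset.sum_ite_mem, Finset.inter_eq_right.2 hJ]

theorem JJ_subset {u : ℕ → ℤ} {A : Finset ℕ} {N : ℕ} : JJ u A 0 N ⊆ range N := by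
  intro j hj
  rw [mem_JJ] at hj
  rw [Finset.mem_range]
  exact hj.1.2

/-- Counting letters. -/
theorem card_letters {k : ℕ} {T : Finset (Option ℕ)} (hT : ∀ x ∈ T, ∃ y < k, x = some y) :
    (#T : ℝ) = k * 𝔼 y : Fin k, ind (some (y : ℕ) ∈ T) := by
  have h1 : 𝔼 y : Fin k, ind (some (y : ℕ) ∈ T) =
      (#{y : Fin k | some (y : ℕ) ∈ T} : ℝ) / k := by
    rw [← expect_ind_mem]
    refine Finset.expect_congr rfl fun y _ => ?_
    simp
  have h2 : #T = #{y : Fin k | some (y : ℕ) ∈ T} := by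
    have : T = ({y : Fin k | some (y : ℕ) ∈ T} : Finset (Fin k)).image
        (fun y : Fin k => some (y : ℕ)) := by
      ext x
      simp only [Finset.mem_image, Finset.mem_filter, Finset.mem_univ, true_and]
      constructor
      · intro hx
        obtain ⟨y, hy, rfl⟩ := hT x hx
        exact ⟨⟨y, hy⟩, hx, rfl⟩
      · rintro ⟨y, hy, rfl⟩
        exact hy
    conv_lhs => rw [this]
    apply Finset.card_image_of_injective
    intro x y hxy
    simpa [Fin.ext_iff] using hxy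
  rcases Nat.eq_zero_or_pos k with hk | hk
  · subst hk
    simp only [Nat.cast_zero, zero_mul, Nat.cast_eq_zero]
    rw [h2]
    simp
  · rw [h1, h2]
    field_simp

end

end Pool.Agent.LCS13
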