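import Pool.Agent.Work.MP_bec1e1_pr_helper73.A1

/-!
# Block A, part 3: the exchange inequalities
-/

open Finset BigOperators
open scoped Classical

namespace Pool.Agent.LCS13

noncomputable section

variable {k t N : ℕ}

theorem wn_ltA {n : ℕ} (w : Fin n → Fin k) (i : Fin n) : wn w (i : ℕ) = some (w i : ℕ) := by
  unfold wn
  rw [dif_pos i.2]

theorem wn_ltA' {n : ℕ} (w : Fin n → Fin k) {i : ℕ} (hi : i < n) :
    wn w i = some (w ⟨i, hi⟩ : ℕ) := by
  unfold wn
  rw [dif_pos hi]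

theorem wn_update_ne (b : Fin N → Fin k) (j : Fin N) (y : Fin k) (i : ℕ) (hi : i ≠ j) :
    wn b i = wn (Function.update b j y) i := by
  unfold wn
  by_cases h : i < N
  · rw [dif_pos h, dif_pos h, Function.update_of_ne]
    intro he
    exact hi (by rw [← he])
  · rw [dif_neg h, dif_neg h]

theorem wn_update_selfA (b : Fin N → Fin k) (j : Fin N) (y : Fin k) :
    wn (Function.update b j y) (j : ℕ) = some (y : ℕ) := by
  rw [wn_ltA, Function.update_self]

/-- The set `J` for random rows and columns. -/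
abbrev JA (a : Fin t → Fin k) (b : Fin N → Fin k) (A : Finset ℕ) : Finset ℕ :=
  JJ (uu (wn a) (wn b) t) A 0 N

/-- The event `Old` for random rows and columns. -/
abbrev OA (H : ℕ) (a : Fin t → Fin k) (b : Fin N → Fin k) (A : Finset ℕ) (j : ℕ) : Prop :=
  Old (wn a) (wn b) t H A N j

/-- The letters of the last `H` rows. -/
abbrev SA (H : ℕ) (a : Fin t → Fin k) : Finset (Option ℕ) := rowL (wn a) (t - H) t

theorem card_SA (H : ℕ) (a : Fin t → Fin k) : #(SA H a) ≤ H := by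
  unfold SA rowL
  refine Finset.card_image_le.trans ?_
  rw [Nat.card_Ico]
  omega

theorem SA_some (H : ℕ) (a : Fin t → Fin k) : ∀ x ∈ SA H a, ∃ y < k, x = some y := by
  intro x hx
  unfold SA rowL at hx
  obtain ⟨i, hi, rfl⟩ := Finset.mem_image.1 hx
  rw [Finset.mem_Ico] at hi
  exact ⟨_, (a ⟨i, hi.2⟩).2, wn_ltA' a hi.2⟩

theorem resA' {H : ℕ} {a : Fin t → Fin k} {b : Fin N → Fin k} {A : Finset ℕ} {j : Fin N}
    {y : Fin k} (hj : (j : ℕ) ∈ JA a b A) (hold : ¬ OA H a b A j) (hy : some (y : ℕ) ∉ SA H a) :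
    (j : ℕ) ∈ JA a (Function.update b j y) A ∧
      (∀ i < (j : ℕ), (i ∈ JA a (Function.update b j y) A ↔ i ∈ JA a b A)) := by
  have h := resA (a := wn a) (b := wn b) (b' := wn (Function.update b j y)) (t := t) (N := N)
    (H := H) (j := j) (A := A) (fun i hi => wn_update_ne b j y i hi) hj hold ?_
  · exact h.2
  · rintro r h1 h2 ⟨x, hx1, hx2⟩
    rw [wn_update_selfA] at hx2
    apply hy
    unfold SA rowL
    rw [Finset.mem_image]
    refine ⟨r, ?_, ?_⟩
    · rw [Finset.mem_Ico]; omega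
    · rw [hx1, hx2]

/-- The letters of the elements of `J` to the left of `j`. -/
abbrev TA (H : ℕ) (a : Fin t → Fin k) (b : Fin N → Fin k) (A : Finset ℕ) (j : ℕ) :
    Finset (Option ℕ) := ({i ∈ JA a b A | i < j}).image (wn b) \ SA H a

theorem TA_some (H : ℕ) (a : Fin t → Fin k) (b : Fin N → Fin k) (A : Finset ℕ) (j : ℕ) :
    ∀ x ∈ TA H a b A j, ∃ y < k, x = some y := by
  intro x hx
  unfold TA at hx
  rw [Finset.mem_sdiff, Finset.mem_image] at hx
  obtain ⟨⟨i, hi, rfl⟩, _⟩ := hx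
  rw [Finset.mem_filter] at hi
  have hiN : i < N := Finset.mem_range.1 (JJ_subset hi.1)
  exact ⟨_, (b ⟨i, hiN⟩).2, wn_ltA' b hiN⟩

/-- First exchange: repeated letters are created. -/
theorem exchange1 (hk : 0 < k) (H : ℕ) (a : Fin t → Fin k) (A : Finset ℕ) (j : Fin N) :
    𝔼 b : Fin N → Fin k, ind ((j : ℕ) ∈ JA a b A) * (ind (¬ OA H a b A j) * #(TA H a b A j)) ≤
      k * 𝔼 b : Fin N → Fin k, ind ((j : ℕ) ∈ JA a b A ∧ ∃ i ∈ JA a b A, i < (j : ℕ) ∧
        wn b i = wn b j) := by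
  have : Nonempty (Fin k) := ⟨⟨0, hk⟩⟩
  set Φ : (Fin N → Fin k) → ℝ := fun b => ind ((j : ℕ) ∈ JA a b A ∧ ∃ i ∈ JA a b A,
    i < (j : ℕ) ∧ wn b i = wn b j) with hΦ
  have h1 : 𝔼 b, Φ b = 𝔼 b, 𝔼 y : Fin k, Φ (Function.update b j y) := by
    rw [expect_exch j (fun b _ => Φ b)]
    refine Finset.expect_congr rfl fun b _ => ?_
    rw [Fintype.expect_const]
  rw [h1, Finset.mul_expect]
  refine Finset.expect_le_expect fun b _ => ?_
  by_cases hj : (j : ℕ) ∈ JA a b A
  · by_cases ho : OA H a b A j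
    · rw [ind_false (P := ¬ OA H a b A j) (by simpa using ho)]
      simp only [zero_mul, mul_zero]
      exact mul_nonneg (by positivity) (Finset.expect_nonneg fun y _ => ind_nonneg _)
    · rw [ind_true hj, ind_true ho, one_mul, one_mul, card_letters (TA_some H a b A j)]
      refine mul_le_mul_of_nonneg_left ?_ (by positivity)
      refine Finset.expect_le_expect fun y _ => ?_
      rw [hΦ]
      apply ind_mono
      intro hy
      unfold TA at hy
      rw [Finset.mem_sdiff, Finset.mem_image] at hy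
      obtain ⟨⟨i, hi, hiy⟩, hyS⟩ := hy
      rw [Finset.mem_filter] at hi
      have h := resA' hj ho hyS
      refine ⟨h.1, i, (h.2 i hi.2).2 hi.1, hi.2, ?_⟩
      rw [wn_update_selfA, ← wn_update_ne b j y i (by omega), hiy]
  · rw [ind_false hj]
    simp only [zero_mul]
    exact mul_nonneg (by positivity) (Finset.expect_nonneg fun y _ => ind_nonneg _)

/-- Second exchange: few letters of `J` are letters of the last rows. -/
theorem exchange2 (hk : 0 < k) (H : ℕ) (hH : 8 * H ≤ k) (a : Fin t → Fin k) (A : Finset ℕ)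
    (j : Fin N) :
    7 * 𝔼 b : Fin N → Fin k, ind ((j : ℕ) ∈ JA a b A ∧ ¬ OA H a b A j ∧ wn b j ∈ SA H a) ≤
      𝔼 b : Fin N → Fin k, ind ((j : ℕ) ∈ JA a b A) := by
  have : Nonempty (Fin k) := ⟨⟨0, hk⟩⟩
  set p : ℝ := 𝔼 y : Fin k, ind (some (y : ℕ) ∈ SA H a) with hp
  have hkR : (0 : ℝ) < k := by exact_mod_cast hk
  have hp8 : p ≤ 1 / 8 := by
    have h1 := card_letters (SA_some H a)
    rw [← hp] at h1
    have h2 : (#(SA H a) : ℝ) ≤ H := by exact_mod_cast card_SA H a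
    have h3 : (8 : ℝ) * H ≤ k := by exact_mod_cast hH
    rw [h1] at h2
    nlinarith
  have hp0 : 0 ≤ p := Finset.expect_nonneg fun y _ => ind_nonneg _
  have hq : 𝔼 y : Fin k, ind (some (y : ℕ) ∉ SA H a) = 1 - p := by
    have : 𝔼 y : Fin k, (ind (some (y : ℕ) ∈ SA H a) + ind (some (y : ℕ) ∉ SA H a)) = 1 := by
      rw [← Fintype.expect_const (ι := Fin k) (1 : ℝ)]
      refine Finset.expect_congr rfl fun y _ => ?_
      by_cases h : some (y : ℕ) ∈ SA H a <;> simp [ind, h]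
    rw [Finset.expect_add_distrib] at this
    linarith
  set L : ℝ := 𝔼 b : Fin N → Fin k, ind ((j : ℕ) ∈ JA a b A ∧ ¬ OA H a b A j ∧
    wn b j ∈ SA H a) with hL
  set R : ℝ := 𝔼 b : Fin N → Fin k, ind ((j : ℕ) ∈ JA a b A) with hR
  have hL0 : 0 ≤ L := Finset.expect_nonneg fun b _ => ind_nonneg _
  have hR0 : 0 ≤ R := Finset.expect_nonneg fun b _ => ind_nonneg _
  have h1 : L * (1 - p) = 𝔼 b : Fin N → Fin k, 𝔼 y : Fin k,
      ind ((j : ℕ) ∈ JA a b A ∧ ¬ OA H a b A j ∧ wn b j ∈ SA H a) *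
        ind (some (y : ℕ) ∉ SA H a) := by
    rw [hL, Finset.expect_mul]
    refine Finset.expect_congr rfl fun b _ => ?_
    rw [← hq, Finset.mul_expect]
  have h2 : R * p = 𝔼 b : Fin N → Fin k, 𝔼 y : Fin k,
      ind ((j : ℕ) ∈ JA a b A) * ind (some (y : ℕ) ∈ SA H a) := by
    rw [hR, Finset.expect_mul]
    refine Finset.expect_congr rfl fun b _ => ?_
    rw [hp, Finset.mul_expect]
  have h3 : L * (1 - p) ≤ R * p := by
    rw [h1, h2, ← expect_exch j (fun b y => ind ((j : ℕ) ∈ JA a b A) *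
      ind (some (y : ℕ) ∈ SA H a))]
    refine Finset.expect_le_expect fun b _ => Finset.expect_le_expect fun y _ => ?_
    rw [← ind_and, ← ind_and]
    apply ind_mono
    rintro ⟨⟨hj, ho, hS⟩, hy⟩
    refine ⟨(resA' hj ho hy).1, ?_⟩
    rw [← wn_ltA]
    exact hS
  nlinarith

end

end Pool.Agent.LCS13
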