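import Pool.Agent.Work.MP_bec1e1_pr_helper73.A2

/-!
# Block A, part 4: summation
-/

open Finset BigOperators
open scoped Classical

namespace Pool.Agent.LCS13

noncomputable section

variable {k t N : ℕ}

theorem card_filter_fin {J : Finset ℕ} (hJ : J ⊆ range N) (P : ℕ → Prop) [DecidablePred P] :
    (#{j ∈ J | P j} : ℝ) = ∑ j : Fin N, ind ((j : ℕ) ∈ J ∧ P j) := by
  have h1 : (#{j ∈ J | P j} : ℝ) = ∑ j ∈ J, ind (P j) := by
    rw [Finset.card_filter]
    push_cast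
    refine Finset.sum_congr rfl fun j _ => ?_
    by_cases h : P j <;> simp [ind, h]
  rw [h1, sum_eq_fin hJ]
  refine Finset.sum_congr rfl fun j _ => ?_
  rw [ind_and]

theorem card_fin_sum {J : Finset ℕ} (hJ : J ⊆ range N) :
    (#J : ℝ) = ∑ j : Fin N, ind ((j : ℕ) ∈ J) := by
  have h1 : (#J : ℝ) = ∑ j ∈ J, (1 : ℝ) := by simp
  rw [h1, sum_eq_fin hJ]
  simp

/-- The number of columns in `J`. -/
abbrev nA (a : Fin t → Fin k) (b : Fin N → Fin k) (A : Finset ℕ) : ℝ := (#(JA a b A) : ℝ)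

/-- The number of repeated letters. -/
abbrev dA (a : Fin t → Fin k) (b : Fin N → Fin k) (A : Finset ℕ) : ℝ :=
  (#(JA a b A) : ℝ) - (#((JA a b A).image (wn b)) : ℝ)

theorem dA_nonneg (a : Fin t → Fin k) (b : Fin N → Fin k) (A : Finset ℕ) : 0 ≤ dA a b A := by
  unfold dA
  have : (#((JA a b A).image (wn b)) : ℝ) ≤ #(JA a b A) := by
    exact_mod_cast Finset.card_image_le
  linarith

theorem dA_le (a : Fin t → Fin k) (b : Fin N → Fin k) (A : Finset ℕ) : dA a b A ≤ nA a b A := by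
  unfold dA nA
  have : (0 : ℝ) ≤ #((JA a b A).image (wn b)) := by positivity
  linarith

theorem nA_le (a : Fin t → Fin k) (b : Fin N → Fin k) (A : Finset ℕ) : nA a b A ≤ N := by
  unfold nA
  have := Finset.card_le_card (JJ_subset (u := uu (wn a) (wn b) t) (A := A) (N := N))
  rw [Finset.card_range] at this
  exact_mod_cast this

theorem nA_le_sq (a : Fin t → Fin k) (b : Fin N → Fin k) (A : Finset ℕ) :
    nA a b A ≤ nA a b A ^ 2 := by
  unfold nA
  have : #(JA a b A) ≤ #(JA a b A) ^ 2 := Nat.le_self_pow (by norm_num) _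
  exact_mod_cast this

/-- Step (i). -/
theorem stepI (hk : 0 < k) {ρ : ℝ} (h0 : 0 ≤ ρ) (h1 : ρ ≤ 1) (H : ℕ) :
    E2 (Ωa := Fin t → Fin k) (Ωb := Fin N → Fin k) ρ N (fun a b A =>
      ∑ j ∈ JA a b A, ind (¬ OA H a b A j) * #(TA H a b A j)) ≤
    k * E2 (Ωa := Fin t → Fin k) (Ωb := Fin N → Fin k) ρ N dA := by
  have e1 : E2 (Ωa := Fin t → Fin k) (Ωb := Fin N → Fin k) ρ N (fun a b A =>
      ∑ j ∈ JA a b A, ind (¬ OA H a b A j) * #(TA H a b A j)) =
      ∑ j : Fin N, E2 (Ωa := Fin t → Fin k) (Ωb := Fin N → Fin k) ρ N (fun a b A =>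
        ind ((j : ℕ) ∈ JA a b A) * (ind (¬ OA H a b A j) * #(TA H a b A j))) := by
    rw [← E2_sum]
    refine E2_congr fun a b A _ => ?_
    exact sum_eq_fin JJ_subset (fun j => ind (¬ OA H a b A j) * #(TA H a b A j))
  have e2 : E2 (Ωa := Fin t → Fin k) (Ωb := Fin N → Fin k) ρ N dA =
      ∑ j : Fin N, E2 (Ωa := Fin t → Fin k) (Ωb := Fin N → Fin k) ρ N (fun a b A =>
        ind ((j : ℕ) ∈ JA a b A ∧ ∃ i ∈ JA a b A, i < (j : ℕ) ∧ wn b i = wn b j)) := by
    rw [← E2_sum]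
    refine E2_congr fun a b A _ => ?_
    have h := card_rep (JA a b A) (wn b)
    have h' : (#{j ∈ JA a b A | ∃ i ∈ JA a b A, i < j ∧ wn b i = wn b j} : ℝ) +
      #((JA a b A).image (wn b)) = #(JA a b A) := by exact_mod_cast h
    have e := card_filter_fin (N := N) (J := JA a b A) JJ_subset
      (fun j => ∃ i ∈ JA a b A, i < j ∧ wn b i = wn b j)
    rw [← e]
    unfold dA
    linarith
  rw [e1, e2, Finset.mul_sum]
  refine Finset.sum_le_sum fun j _ => ?_
  rw [← E2_mul_left]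
  refine E2_mono_inner h0 h1 fun a A _ => ?_
  rw [← Finset.mul_expect]
  exact exchange1 hk H a A j

/-- Step (iii). -/
theorem stepIII (hGeo : Stmt_Geo) {ρ : ℝ} (h0 : 0 < ρ) (h1 : ρ < 1) (H : ℕ) :
    E2 (Ωa := Fin t → Fin k) (Ωb := Fin N → Fin k) ρ N (fun a b A =>
      ∑ i ∈ JA a b A, ind (wn b i ∈ SA H a) * (#{j ∈ JA a b A | i < j} : ℝ)) ≤
    (1 - ρ) / ρ * E2 (Ωa := Fin t → Fin k) (Ωb := Fin N → Fin k) ρ N (fun a b A =>
      ∑ i ∈ JA a b A, ind (wn b i ∈ SA H a)) := by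
  rw [← E2_mul_left]
  refine E2_mono' fun a b => ?_
  have e1 : ES ρ (range N) (fun A => ∑ i ∈ JA a b A, ind (wn b i ∈ SA H a) *
      (#{j ∈ JA a b A | i < j} : ℝ)) = ∑ i : Fin N, ind (wn b i ∈ SA H a) *
        ES ρ (range N) (fun A => ind ((i : ℕ) ∈ JA a b A) * (#{j ∈ JA a b A | (i : ℕ) < j} : ℝ)) := by
    rw [ES_congr (g := fun A => ∑ i : Fin N, ind (wn b i ∈ SA H a) *
      (ind ((i : ℕ) ∈ JA a b A) * (#{j ∈ JA a b A | (i : ℕ) < j} : ℝ)))]
    · rw [ES_sum]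
      refine Finset.sum_congr rfl fun i _ => ?_
      rw [ES_mul_left]
    · intro A _
      rw [sum_eq_fin JJ_subset (fun i => ind (wn b i ∈ SA H a) * (#{j ∈ JA a b A | i < j} : ℝ))]
      refine Finset.sum_congr rfl fun i _ => ?_
      ring
  have e2 : ES ρ (range N) (fun A => (1 - ρ) / ρ * ∑ i ∈ JA a b A, ind (wn b i ∈ SA H a)) =
      ∑ i : Fin N, ind (wn b i ∈ SA H a) * ((1 - ρ) / ρ *
        ES ρ (range N) (fun A => ind ((i : ℕ) ∈ JA a b A))) := by
    rw [ES_congr (g := fun A => ∑ i : Fin N, ind (wn b i ∈ SA H a) * ((1 - ρ) / ρ) *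
      ind ((i : ℕ) ∈ JA a b A))]
    · rw [ES_sum]
      refine Finset.sum_congr rfl fun i _ => ?_
      rw [ES_mul_left]
      ring
    · intro A _
      rw [sum_eq_fin JJ_subset (fun i => ind (wn b i ∈ SA H a)), Finset.mul_sum]
      refine Finset.sum_congr rfl fun i _ => ?_
      ring
  rw [e1, e2]
  refine Finset.sum_le_sum fun i _ => ?_
  exact mul_le_mul_of_nonneg_left (hGeo ρ h0 h1 _ (uu_prof _ _ _) i N i.2) (ind_nonneg _)

/-- Step (iv). -/
theorem stepIV (hk : 0 < k) {ρ : ℝ} (h0 : 0 ≤ ρ) (h1 : ρ ≤ 1) (H : ℕ) (hH : 8 * H ≤ k) :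
    E2 (Ωa := Fin t → Fin k) (Ωb := Fin N → Fin k) ρ N (fun a b A =>
      ∑ i ∈ JA a b A, ind (wn b i ∈ SA H a)) ≤
    1 / 7 * E2 (Ωa := Fin t → Fin k) (Ωb := Fin N → Fin k) ρ N nA +
    E2 (Ωa := Fin t → Fin k) (Ωb := Fin N → Fin k) ρ N (fun a b A =>
      nA a b A * ind (∃ j ∈ JA a b A, OA H a b A j)) := by
  have e0 : E2 (Ωa := Fin t → Fin k) (Ωb := Fin N → Fin k) ρ N (fun a b A =>
      ∑ i ∈ JA a b A, ind (wn b i ∈ SA H a)) ≤
      E2 (Ωa := Fin t → Fin k) (Ωb := Fin N → Fin k) ρ N (fun a b A =>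
        (∑ i : Fin N, ind ((i : ℕ) ∈ JA a b A ∧ ¬ OA H a b A i ∧ wn b i ∈ SA H a)) +
          nA a b A * ind (∃ j ∈ JA a b A, OA H a b A j)) := by
    refine E2_mono h0 h1 fun a b A _ => ?_
    rw [sum_eq_fin JJ_subset (fun i => ind (wn b i ∈ SA H a))]
    have e3 : nA a b A * ind (∃ j ∈ JA a b A, OA H a b A j) = ∑ i : Fin N,
        ind ((i : ℕ) ∈ JA a b A) * ind (∃ j ∈ JA a b A, OA H a b A j) := by
      unfold nA
      rw [card_fin_sum JJ_subset, Finset.sum_mul]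
    rw [e3, ← Finset.sum_add_distrib]
    refine Finset.sum_le_sum fun i _ => ?_
    rw [← ind_and, ← ind_and]
    refine le_trans ?_ (ind_or_le _ _)
    apply ind_mono
    rintro ⟨hi, hS⟩
    by_cases ho : OA H a b A i
    · exact Or.inr ⟨hi, i, hi, ho⟩
    · exact Or.inl ⟨hi, ho, hS⟩
  refine e0.trans ?_
  rw [E2_add, E2_sum]
  refine add_le_add ?_ le_rfl
  have e4 : E2 (Ωa := Fin t → Fin k) (Ωb := Fin N → Fin k) ρ N nA = ∑ i : Fin N,
      E2 (Ωa := Fin t → Fin k) (Ωb := Fin N → Fin k) ρ N (fun a b A =>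
        ind ((i : ℕ) ∈ JA a b A)) := by
    rw [← E2_sum]
    refine E2_congr fun a b A _ => ?_
    exact card_fin_sum JJ_subset
  rw [e4, Finset.mul_sum]
  refine Finset.sum_le_sum fun i _ => ?_
  have e5 : E2 (Ωa := Fin t → Fin k) (Ωb := Fin N → Fin k) ρ N (fun a b A =>
      7 * ind ((i : ℕ) ∈ JA a b A ∧ ¬ OA H a b A i ∧ wn b i ∈ SA H a)) ≤
      E2 (Ωa := Fin t → Fin k) (Ωb := Fin N → Fin k) ρ N (fun a b A =>
        ind ((i : ℕ) ∈ JA a b A)) := by
    refine E2_mono_inner h0 h1 fun a A _ => ?_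
    rw [← Finset.mul_expect]
    exact exchange2 hk H hH a A i
  rw [E2_mul_left] at e5
  linarith

/-- The main inequality. -/
theorem main_ineq (hTail : Stmt_LawTail) (hMean : Stmt_LawMean) (hPairs : Stmt_LawPairs)
    (hGeo : Stmt_Geo) (hk : 0 < k) {ρ : ℝ} (h0 : 0 < ρ) (h1 : ρ < 1) (H : ℕ) (hH : 8 * H ≤ k)
    (m : ℕ) {PZ PQ : ℝ}
    (hPZ : E2 (Ωa := Fin t → Fin k) (Ωb := Fin N → Fin k) ρ N (fun a b A =>
      ind (N ∈ ZZ (uu (wn a) (wn b) t) A 0 N)) ≤ PZ)
    (hPQ : E2 (Ωa := Fin t → Fin k) (Ωb := Fin N → Fin k) ρ N (fun a b A =>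
      ind (∃ j ∈ JA a b A, OA H a b A j)) ≤ PQ) :
    6 / 7 * ((1 - ρ) / ρ) ^ 2 - PZ * (((1 - ρ) / ρ) ^ 2 + N * ((1 - ρ) / ρ)) -
      (m : ℝ) ^ 2 * PQ - 2 * ((N : ℝ) ^ 2 * (1 - ρ) ^ m) -
      (1 - ρ) / ρ * (m * PQ + (N : ℝ) ^ 2 * (1 - ρ) ^ m) ≤
    E2 (Ωa := Fin t → Fin k) (Ωb := Fin N → Fin k) ρ N dA * (k + m) := by
  have : Nonempty (Fin k) := ⟨⟨0, hk⟩⟩
  set E : ((Fin t → Fin k) → (Fin N → Fin k) → Finset ℕ → ℝ) → ℝ :=
    E2 (Ωa := Fin t → Fin k) (Ωb := Fin N → Fin k) ρ N with hE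
  set x : ℝ := (1 - ρ) / ρ with hx
  have hx0 : 0 ≤ x := div_nonneg (by linarith) h0.le
  set Q : (Fin t → Fin k) → (Fin N → Fin k) → Finset ℕ → ℝ := fun a b A =>
    ind (∃ j ∈ JA a b A, OA H a b A j) with hQ
  set τ : ℝ := E (fun a b A => nA a b A ^ 2 * ind ((m : ℝ) < nA a b A)) with hτ
  have hQ0 : ∀ a b A, 0 ≤ Q a b A := fun a b A => ind_nonneg _
  have hQ1 : ∀ a b A, Q a b A ≤ 1 := fun a b A => ind_le_one _
  have hn0 : ∀ (a : Fin t → Fin k) (b : Fin N → Fin k) A, 0 ≤ nA a b A :=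
    fun a b A => by unfold nA; positivity
  have hm0 : (0 : ℝ) ≤ m := by positivity
  -- tail
  have hτle : τ ≤ (N : ℝ) ^ 2 * (1 - ρ) ^ m := by
    have e1 : τ ≤ E (fun a b A => (N : ℝ) ^ 2 * ind (m ≤ #(JA a b A))) := by
      refine E2_mono h0.le h1.le fun a b A _ => ?_
      have h2 : nA a b A ^ 2 ≤ (N : ℝ) ^ 2 := by
        have := nA_le a b A
        have := hn0 a b A
        nlinarith
      refine mul_le_mul h2 (ind_mono fun h => ?_) (ind_nonneg _) (by positivity)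
      have : m < #(JA a b A) := by exact_mod_cast h
      omega
    refine e1.trans ?_
    rw [hE, E2_mul_left]
    refine mul_le_mul_of_nonneg_left ?_ (by positivity)
    rw [← E2_const (Ωa := Fin t → Fin k) (Ωb := Fin N → Fin k) (ρ := ρ) (N := N) ((1 - ρ) ^ m)]
    refine E2_mono' fun a b => ?_
    have h := hTail ρ h0 h1 _ (uu_prof (wn a) (wn b) t) 0 N (Nat.zero_le _) N m
    have hM : ∀ A : Finset ℕ, MM (uu (wn a) (wn b) t) A 0 N ≤ N := by
      intro A
      rw [MM_le_iff (Nat.zero_le _)]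
      intro g _ hg
      unfold XX
      rw [uu_zero]
      have h3 : uu (wn a) (wn b) t g ≤ g := by
        unfold uu
        exact_mod_cast lp_le_col
      have h4 : (g : ℤ) ≤ N := by exact_mod_cast hg
      omega
    rw [Nat.Ico_zero_eq_range] at h
    have e2 : ES ρ (range N) (fun A => ind (MM (uu (wn a) (wn b) t) A 0 N ≤ N ∧
        m ≤ #(JJ (uu (wn a) (wn b) t) A 0 N))) =
        ES ρ (range N) (fun A => ind (m ≤ #(JA a b A))) := by
      refine ES_congr fun A _ => ?_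
      simp [hM A]
    have e3 : ES ρ (range N) (fun A => ind (MM (uu (wn a) (wn b) t) A 0 N ≤ N)) = 1 := by
      rw [ES_congr (g := fun _ => 1) (fun A _ => ind_true (hM A)), ES_const]
    rw [e2, e3, mul_one] at h
    rw [ES_const]
    exact h
  have hτ0 : 0 ≤ τ := E2_nonneg h0.le h1.le fun a b A _ =>
    mul_nonneg (sq_nonneg _) (ind_nonneg _)
  -- mean and pairs
  have hmean : E nA ≤ x := by
    rw [← E2_const (Ωa := Fin t → Fin k) (Ωb := Fin N → Fin k) (ρ := ρ) (N := N) x]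
    refine E2_mono' fun a b => ?_
    have h := hMean ρ h0 h1 _ (uu_prof (wn a) (wn b) t) 0 N (Nat.zero_le _)
    rw [Nat.Ico_zero_eq_range] at h
    rw [ES_const]
    have h2 : 0 ≤ ES ρ (range N) (fun A => ind (N ∈ ZZ (uu (wn a) (wn b) t) A 0 N)) :=
      ES_nonneg h0.le h1.le fun A _ => ind_nonneg _
    have h3 : ES ρ (range N) (nA a b) = x * (1 - ES ρ (range N) (fun A =>
      ind (N ∈ ZZ (uu (wn a) (wn b) t) A 0 N))) := h
    rw [h3]
    nlinarith
  have hpairs : x ^ 2 - PZ * (x ^ 2 + N * x) ≤ E (fun a b A => nA a b A * (nA a b A - 1) / 2) := by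
    have e1 : E (fun a b A => x ^ 2 - ind (N ∈ ZZ (uu (wn a) (wn b) t) A 0 N) *
        (x ^ 2 + N * x)) ≤ E (fun a b A => nA a b A * (nA a b A - 1) / 2) := by
      refine E2_mono' fun a b => ?_
      have h := hPairs ρ h0 h1 _ (uu_prof (wn a) (wn b) t) 0 N (Nat.zero_le _)
      rw [Nat.Ico_zero_eq_range] at h
      rw [ES_sub, ES_const, ES_mul_right]
      simpa using h
    rw [hE, E2_sub, E2_const, E2_mul_right] at e1
    refine le_trans ?_ e1
    have : 0 ≤ x ^ 2 + N * x := by positivity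
    nlinarith
  -- the events Q
  have hQn : E (fun a b A => nA a b A * Q a b A) ≤ m * PQ + τ := by
    have e1 : E (fun a b A => nA a b A * Q a b A) ≤ E (fun a b A => m * Q a b A +
        nA a b A ^ 2 * ind ((m : ℝ) < nA a b A)) := by
      refine E2_mono h0.le h1.le fun a b A _ => ?_
      by_cases h : (m : ℝ) < nA a b A
      · rw [ind_true h]
        have := nA_le_sq a b A
        have := hn0 a b A
        have := hQ1 a b A
        have := hQ0 a b A
        nlinarith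
      · rw [ind_false h]
        have := hQ0 a b A
        nlinarith
    rw [hE, E2_add, E2_mul_left] at e1
    have : (m : ℝ) * E Q ≤ m * PQ := mul_le_mul_of_nonneg_left hPQ hm0
    exact e1.trans (by linarith)
  have hQn2 : E (fun a b A => nA a b A ^ 2 * Q a b A) ≤ (m : ℝ) ^ 2 * PQ + τ := by
    have e1 : E (fun a b A => nA a b A ^ 2 * Q a b A) ≤ E (fun a b A => (m : ℝ) ^ 2 * Q a b A +
        nA a b A ^ 2 * ind ((m : ℝ) < nA a b A)) := by
      refine E2_mono h0.le h1.le fun a b A _ => ?_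
      by_cases h : (m : ℝ) < nA a b A
      · rw [ind_true h]
        have := hQ1 a b A
        have := hQ0 a b A
        have := sq_nonneg (nA a b A)
        nlinarith [sq_nonneg (m : ℝ)]
      · rw [ind_false h]
        have h2 : nA a b A ^ 2 ≤ (m : ℝ) ^ 2 := by
          have := hn0 a b A
          nlinarith
        have := hQ0 a b A
        nlinarith
    rw [hE, E2_add, E2_mul_left] at e1
    have : (m : ℝ) ^ 2 * E Q ≤ (m : ℝ) ^ 2 * PQ := mul_le_mul_of_nonneg_left hPQ (by positivity)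
    exact e1.trans (by linarith)
  have hnd : E (fun a b A => nA a b A * dA a b A) ≤ m * E dA + τ := by
    have e1 : E (fun a b A => nA a b A * dA a b A) ≤ E (fun a b A => m * dA a b A +
        nA a b A ^ 2 * ind ((m : ℝ) < nA a b A)) := by
      refine E2_mono h0.le h1.le fun a b A _ => ?_
      by_cases h : (m : ℝ) < nA a b A
      · rw [ind_true h]
        have := dA_nonneg a b A
        have := dA_le a b A
        have := hn0 a b A
        nlinarith
      · rw [ind_false h]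
        have := dA_nonneg a b A
        nlinarith
    rwa [hE, E2_add, E2_mul_left] at e1
  -- old letters
  have hS : E (fun a b A => ∑ i ∈ JA a b A, ind (wn b i ∈ SA H a) *
      (#{j ∈ JA a b A | i < j} : ℝ)) ≤ x * (1 / 7 * x + (m * PQ + τ)) := by
    refine (stepIII hGeo h0 h1 H).trans ?_
    refine mul_le_mul_of_nonneg_left ?_ hx0
    refine (stepIV hk h0.le h1.le H hH).trans ?_
    have : (1 / 7 : ℝ) * E nA ≤ 1 / 7 * x := by linarith
    exact add_le_add this hQn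
  -- the combinatorial inequality
  have hcomb : E (fun a b A => nA a b A * (nA a b A - 1) / 2 - nA a b A ^ 2 * Q a b A -
      ∑ i ∈ JA a b A, ind (wn b i ∈ SA H a) * (#{j ∈ JA a b A | i < j} : ℝ) -
        nA a b A * dA a b A) ≤ k * E dA := by
    refine le_trans ?_ (stepI hk h0.le h1.le H)
    refine E2_mono h0.le h1.le fun a b A _ => ?_
    exact comb_main (JA a b A) (wn b) (SA H a) (OA H a b A)
  rw [hE, E2_sub, E2_sub, E2_sub] at hcomb
  have hxt : x * τ ≤ x * ((N : ℝ) ^ 2 * (1 - ρ) ^ m) := mul_le_mul_of_nonneg_left hτle hx0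
  have hfin : x ^ 2 - PZ * (x ^ 2 + N * x) - ((m : ℝ) ^ 2 * PQ + τ) -
      x * (1 / 7 * x + (m * PQ + τ)) - (m * E dA + τ) ≤ k * E dA := by
    refine le_trans ?_ hcomb
    have := hpairs
    have := hQn2
    have := hS
    have := hnd
    simp only [hE] at *
    linarith
  nlinarith

end

end Pool.Agent.LCS13
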