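import Pool.Agent.Work.MP_bec1e1_pr_helper73.ResB
import Pool.Agent.Work.MP_bec1e1_pr_helper73.A3

/-!
# Block B: segment columns lose nothing
-/

open Finset BigOperators Filter
open scoped Classical

namespace Pool.Agent.LCS13

noncomputable section

variable {k t s K R : ℕ}

theorem sum_ind_card {k : ℕ} (P : Fin k → Prop) [DecidablePred P] :
    ∑ y : Fin k, ind (P y) = (#{y : Fin k | P y} : ℝ) := by
  rw [Finset.card_filter]
  push_cast
  refine Finset.sum_congr rfl fun y _ => ?_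
  by_cases h : P y
  · rw [ind_true h, if_pos h]
  · rw [ind_false h, if_neg h]

/-- The exchange for one column. -/
theorem exchangeB (a : Fin t → Fin k) (A : Finset ℕ) (j : Fin (R * s)) :
    ((K : ℝ) - s + 1) * 𝔼 ω : Fin R → Seg s K,
      ind ((j : ℕ) ∈ JJ (uu (wn a) (sw ω) t) A 0 (R * s) ∧
        ∃ i ∈ JJ (uu (wn a) (sw ω) t) A 0 (R * s), i < (j : ℕ) ∧ sw ω i = sw ω j) ≤
    𝔼 ω : Fin R → Seg s K,
      (ind ((j : ℕ) ∈ JJ (uu (wn a) (sw ω) t) A 0 (R * s)) *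
          (#{i ∈ JJ (uu (wn a) (sw ω) t) A 0 (R * s) | i + s ≤ (j : ℕ)} : ℝ) +
        ind ((j : ℕ) ∈ J1 (uu (wn a) (sw ω) t) A 0 (R * s)) *
          (#{i ∈ J1 (uu (wn a) (sw ω) t) A 0 (R * s) | i + s ≤ (j : ℕ)} : ℝ)) := by
  have hd := sw_dom j.2
  set r : Fin R := ⟨(j : ℕ) / s, hd.1⟩ with hr
  set p : Fin s := ⟨(j : ℕ) % s, hd.2⟩ with hp
  set Φ : (Fin R → Seg s K) → ℝ := fun ω =>
    ind ((j : ℕ) ∈ JJ (uu (wn a) (sw ω) t) A 0 (R * s) ∧
        ∃ i ∈ JJ (uu (wn a) (sw ω) t) A 0 (R * s), i < (j : ℕ) ∧ sw ω i = sw ω j) with hΦ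
  rcases Nat.eq_zero_or_pos K with hK0 | hK
  · -- no segments
    subst hK0
    have : IsEmpty (Seg s 0) := ⟨fun v => (v.1 p).elim0⟩
    have : IsEmpty (Fin R → Seg s 0) := ⟨fun ω => this.false (ω r)⟩
    simp
  have hKR : (0 : ℝ) < K := by exact_mod_cast hK
  have h1 : ((K : ℝ) - s + 1) * 𝔼 ω, Φ ω = 𝔼 ω : Fin R → Seg s K,
      (K * 𝔼 y : Fin K, ind (okw ω r p y) * Φ (repw ω r p y)) := by
    rw [← Finset.mul_expect, expect_exchB, Finset.mul_expect, Finset.mul_expect]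
    refine Finset.expect_congr rfl fun ω _ => ?_
    rw [← Finset.expect_mul, expect_ok]
    field_simp
  rw [h1]
  refine Finset.expect_le_expect fun ω _ => ?_
  have h2 : K * 𝔼 y : Fin K, ind (okw ω r p y) * Φ (repw ω r p y) =
      (#{y : Fin K | okw ω r p y ∧
        ((j : ℕ) ∈ JJ (uu (wn a) (sw (repw ω r p y)) t) A 0 (R * s) ∧
        ∃ i ∈ JJ (uu (wn a) (sw (repw ω r p y)) t) A 0 (R * s), i < (j : ℕ) ∧
          sw (repw ω r p y) i = sw (repw ω r p y) j)} : ℝ) := by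
    rw [← sum_ind_card, Fintype.expect_eq_sum_div_card, Fintype.card_fin, mul_div_assoc',
      mul_div_cancel_left₀ _ hKR.ne']
    refine Finset.sum_congr rfl fun y _ => ?_
    rw [ind_and]
  rw [h2]
  set T : Finset (Fin K) := {y : Fin K | okw ω r p y ∧
        ((j : ℕ) ∈ JJ (uu (wn a) (sw (repw ω r p y)) t) A 0 (R * s) ∧
        ∃ i ∈ JJ (uu (wn a) (sw (repw ω r p y)) t) A 0 (R * s), i < (j : ℕ) ∧
          sw (repw ω r p y) i = sw (repw ω r p y) j)} with hT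
  set J : Finset ℕ := JJ (uu (wn a) (sw ω) t) A 0 (R * s) with hJ
  set J' : Finset ℕ := J1 (uu (wn a) (sw ω) t) A 0 (R * s) with hJ'
  set I1 : Finset ℕ := {i ∈ J | i + s ≤ (j : ℕ) ∧ (j : ℕ) ∈ J} with hI1
  set I2 : Finset ℕ := {i ∈ J' | i + s ≤ (j : ℕ) ∧ (j : ℕ) ∈ J'} with hI2
  have h3 : T.image (fun y : Fin K => some ((y : ℕ) + ((j : ℕ) / s % 2) * K)) ⊆
      (I1 ∪ I2).image (sw ω) := by
    intro z hz
    obtain ⟨y, hy, rfl⟩ := Finset.mem_image.1 hz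
    rw [hT, Finset.mem_filter] at hy
    obtain ⟨-, hok, hj, i, hi, hij, he⟩ := hy
    have hself := sw_repw_self hd hok
    have hne : ∀ x, x ≠ (j : ℕ) → sw ω x = sw (repw ω r p y) x := fun x hx =>
      sw_repw_ne hd hok hx
    have hfar := sw_far _ hij j.2 he
    rw [Finset.mem_image]
    refine ⟨i, ?_, ?_⟩
    · rw [Finset.mem_union, hI1, hI2, Finset.mem_filter, Finset.mem_filter]
      rcases resB (a := wn a) (b := sw ω) (b' := sw (repw ω r p y)) hne hi hj hij with h | h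
      · exact Or.inl ⟨h.1, hfar, h.2⟩
      · exact Or.inr ⟨h.1, hfar, h.2⟩
    · rw [hne i (by omega), he]
      exact hself
  have h4 : #T ≤ #I1 + #I2 := by
    have e1 : #(T.image (fun y : Fin K => some ((y : ℕ) + ((j : ℕ) / s % 2) * K))) = #T := by
      apply Finset.card_image_of_injective
      intro x y hxy
      simpa [Fin.ext_iff] using hxy
    rw [← e1]
    exact (Finset.card_le_card h3).trans (Finset.card_image_le.trans (Finset.card_union_le _ _))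
  have h5 : (#T : ℝ) ≤ #I1 + #I2 := by exact_mod_cast h4
  refine h5.trans (add_le_add ?_ ?_)
  · by_cases h : (j : ℕ) ∈ J
    · rw [ind_true h, one_mul, hI1]
      simp [h]
    · rw [hI1]
      simp [h, ind_false]
  · by_cases h : (j : ℕ) ∈ J'
    · rw [ind_true h, one_mul, hI2]
      simp [h]
    · rw [hI2]
      simp [h, ind_false]

/-- Counting far pairs. -/
theorem card_pairs {N s : ℕ} {J : Finset ℕ} (hJ : J ⊆ range N) :
    (#{p ∈ J ×ˢ J | p.1 + s ≤ p.2} : ℝ) =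
      ∑ j : Fin N, ind ((j : ℕ) ∈ J) * (#{i ∈ J | i + s ≤ (j : ℕ)} : ℝ) := by
  rw [← sum_eq_fin hJ (fun j => (#{i ∈ J | i + s ≤ j} : ℝ)), Finset.card_filter,
    Finset.sum_product_right]
  push_cast
  refine Finset.sum_congr rfl fun j _ => ?_
  rw [Finset.card_filter]
  push_cast
  rfl

theorem J1_subset {u : ℕ → ℤ} {A : Finset ℕ} {N : ℕ} : J1 u A 0 N ⊆ range N := by
  intro j hj
  rw [mem_J1] at hj
  rw [Finset.mem_range]
  exact hj.1.2

theorem main_B {ρ : ℝ} (h0 : 0 ≤ ρ) (h1 : ρ ≤ 1) :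
    ((K : ℝ) - s + 1) * 𝔼 ω : Fin R → Seg s K, del k (sw ω) t (R * s) ρ ≤
    E2 (Ωa := Fin t → Fin k) (Ωb := Fin R → Seg s K) ρ (R * s) (fun a ω A =>
      (#{p ∈ JJ (uu (wn a) (sw ω) t) A 0 (R * s) ×ˢ JJ (uu (wn a) (sw ω) t) A 0 (R * s) |
        p.1 + s ≤ p.2} : ℝ)) +
    E2 (Ωa := Fin t → Fin k) (Ωb := Fin R → Seg s K) ρ (R * s) (fun a ω A =>
      (#{p ∈ J1 (uu (wn a) (sw ω) t) A 0 (R * s) ×ˢ J1 (uu (wn a) (sw ω) t) A 0 (R * s) |
        p.1 + s ≤ p.2} : ℝ)) := by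
  have hD : 𝔼 ω : Fin R → Seg s K, del k (sw ω) t (R * s) ρ =
      E2 (Ωa := Fin t → Fin k) (Ωb := Fin R → Seg s K) ρ (R * s) (fun a ω A =>
        (#(JJ (uu (wn a) (sw ω) t) A 0 (R * s)) : ℝ) -
          (#((JJ (uu (wn a) (sw ω) t) A 0 (R * s)).image (sw ω)) : ℝ)) := by
    rw [← E2_swap]
    rfl
  have e2 : E2 (Ωa := Fin t → Fin k) (Ωb := Fin R → Seg s K) ρ (R * s) (fun a ω A =>
        (#(JJ (uu (wn a) (sw ω) t) A 0 (R * s)) : ℝ) -
          (#((JJ (uu (wn a) (sw ω) t) A 0 (R * s)).image (sw ω)) : ℝ)) =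
      ∑ j : Fin (R * s), E2 (Ωa := Fin t → Fin k) (Ωb := Fin R → Seg s K) ρ (R * s)
        (fun a ω A => ind ((j : ℕ) ∈ JJ (uu (wn a) (sw ω) t) A 0 (R * s) ∧
        ∃ i ∈ JJ (uu (wn a) (sw ω) t) A 0 (R * s), i < (j : ℕ) ∧ sw ω i = sw ω j)) := by
    rw [← E2_sum]
    refine E2_congr fun a ω A _ => ?_
    have h := card_rep (JJ (uu (wn a) (sw ω) t) A 0 (R * s)) (sw ω)
    have h' : (#{j ∈ JJ (uu (wn a) (sw ω) t) A 0 (R * s) |
      ∃ i ∈ JJ (uu (wn a) (sw ω) t) A 0 (R * s), i < j ∧ sw ω i = sw ω j} : ℝ) +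
      #((JJ (uu (wn a) (sw ω) t) A 0 (R * s)).image (sw ω)) =
        #(JJ (uu (wn a) (sw ω) t) A 0 (R * s)) := by exact_mod_cast h
    have e := card_filter_fin (N := R * s) (J := JJ (uu (wn a) (sw ω) t) A 0 (R * s)) JJ_subset
      (fun j => ∃ i ∈ JJ (uu (wn a) (sw ω) t) A 0 (R * s), i < j ∧ sw ω i = sw ω j)
    rw [← e]
    linarith
  rw [hD, e2, ← E2_add, Finset.mul_sum]
  have e3 : E2 (Ωa := Fin t → Fin k) (Ωb := Fin R → Seg s K) ρ (R * s) (fun a ω A =>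
      (#{p ∈ JJ (uu (wn a) (sw ω) t) A 0 (R * s) ×ˢ JJ (uu (wn a) (sw ω) t) A 0 (R * s) |
        p.1 + s ≤ p.2} : ℝ) +
      (#{p ∈ J1 (uu (wn a) (sw ω) t) A 0 (R * s) ×ˢ J1 (uu (wn a) (sw ω) t) A 0 (R * s) |
        p.1 + s ≤ p.2} : ℝ)) =
      ∑ j : Fin (R * s), E2 (Ωa := Fin t → Fin k) (Ωb := Fin R → Seg s K) ρ (R * s)
        (fun a ω A => ind ((j : ℕ) ∈ JJ (uu (wn a) (sw ω) t) A 0 (R * s)) *
          (#{i ∈ JJ (uu (wn a) (sw ω) t) A 0 (R * s) | i + s ≤ (j : ℕ)} : ℝ) +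
        ind ((j : ℕ) ∈ J1 (uu (wn a) (sw ω) t) A 0 (R * s)) *
          (#{i ∈ J1 (uu (wn a) (sw ω) t) A 0 (R * s) | i + s ≤ (j : ℕ)} : ℝ)) := by
    rw [← E2_sum]
    refine E2_congr fun a ω A _ => ?_
    rw [card_pairs JJ_subset, card_pairs J1_subset, Finset.sum_add_distrib]
  rw [e3]
  refine Finset.sum_le_sum fun j _ => ?_
  rw [← E2_mul_left]
  refine E2_mono_inner h0 h1 fun a A _ => ?_
  rw [← Finset.mul_expect]
  exact exchangeB a A j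

theorem stmt_B (hU : Stmt_U23) : Stmt_B := by
  intro c1 c2 ε hc1 hc2 hε
  have ev1 := hU c1 c2 (ε / 8) hc1 hc2 (by positivity)
  have ev6 : ∀ᶠ k : ℕ in atTop, (16 * c2) ^ 2 + 1 ≤ (k : ℝ) :=
    tendsto_natCast_atTop_atTop.eventually (eventually_ge_atTop ((16 * c2) ^ 2 + 1))
  have ev7 : ∀ᶠ k : ℕ in atTop, 4 ≤ k := eventually_ge_atTop 4
  filter_upwards [ev1, ev6, ev7] with k hU' he7 hk4
  intro ρ hρ1 hρ2 t R hR
  have hk1R : (1 : ℝ) ≤ k := by nlinarith [sq_nonneg (16 * c2)]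
  have hk : 0 < k := by omega
  have hkR : (0 : ℝ) < k := by linarith
  have hsk : 0 < √(k : ℝ) := Real.sqrt_pos.2 hkR
  have hρ0 : 0 < ρ := by
    by_contra h
    have : ρ * √(k : ℝ) ≤ 0 := mul_nonpos_of_nonpos_of_nonneg (by linarith) hsk.le
    linarith
  have h16 : 16 * c2 ≤ √(k : ℝ) := by
    apply Real.le_sqrt_of_sq_le
    linarith
  have hρ16 : ρ ≤ 1 / 16 := by
    have h2 : 16 * (ρ * √(k : ℝ)) ≤ √(k : ℝ) := by linarith
    have h3 : (16 * ρ) * √(k : ℝ) ≤ 1 * √(k : ℝ) := by linarith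
    have := le_of_mul_le_mul_right h3 hsk
    linarith
  have hρlt : ρ < 1 := by linarith
  set s : ℕ := k / 2 / 2 with hs
  set K : ℕ := k / 2 with hK
  have hsK : s ≤ K := by omega
  have : Nonempty (Fin k) := ⟨⟨0, hk⟩⟩
  have : Nonempty (Seg s K) := ⟨⟨fun i => ⟨i, i.2.trans_le hsK⟩, fun x y hxy => by
    simpa [Fin.ext_iff] using hxy⟩⟩
  have hmain := main_B (k := k) (t := t) (s := s) (K := K) (R := R) hρ0.le hρlt.le
  have b1 : E2 (Ωa := Fin t → Fin k) (Ωb := Fin R → Seg s K) ρ (R * s) (fun a ω A =>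
      (#{p ∈ JJ (uu (wn a) (sw ω) t) A 0 (R * s) ×ˢ JJ (uu (wn a) (sw ω) t) A 0 (R * s) |
        p.1 + s ≤ p.2} : ℝ)) ≤ ε / 8 * k := by
    rw [← E2_const (Ωa := Fin t → Fin k) (Ωb := Fin R → Seg s K) (ρ := ρ) (N := R * s)
      (ε / 8 * k)]
    refine E2_mono' fun a ω => ?_
    rw [ES_const]
    exact (hU' ρ hρ1 hρ2 (R * s) hR _ (uu_prof (wn a) (sw ω) t)).1
  have b2 : E2 (Ωa := Fin t → Fin k) (Ωb := Fin R → Seg s K) ρ (R * s) (fun a ω A =>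
      (#{p ∈ J1 (uu (wn a) (sw ω) t) A 0 (R * s) ×ˢ J1 (uu (wn a) (sw ω) t) A 0 (R * s) |
        p.1 + s ≤ p.2} : ℝ)) ≤ ε / 8 * k := by
    rw [← E2_const (Ωa := Fin t → Fin k) (Ωb := Fin R → Seg s K) (ρ := ρ) (N := R * s)
      (ε / 8 * k)]
    refine E2_mono' fun a ω => ?_
    rw [ES_const]
    exact (hU' ρ hρ1 hρ2 (R * s) hR _ (uu_prof (wn a) (sw ω) t)).2
  have hKs : (k : ℝ) / 4 ≤ (K : ℝ) - s + 1 := by
    have h1 : (k : ℝ) ≤ 2 * K + 1 := by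
      have : k ≤ 2 * K + 1 := by omega
      exact_mod_cast this
    have h2 : (2 : ℝ) * s ≤ K := by
      have : 2 * s ≤ K := by omega
      exact_mod_cast this
    linarith
  by_contra hlt
  push Not at hlt
  have h3 : (k : ℝ) / 4 * ε < ((K : ℝ) - s + 1) *
      𝔼 ω : Fin R → Seg s K, del k (sw ω) t (R * s) ρ := by
    have hpos : 0 < (k : ℝ) / 4 := by positivity
    nlinarith
  linarith

end

end Pool.Agent.LCS13
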