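import Pool.Agent.Work.MP_bec1e1_pr_helper73.ResA

/-!
# Expectation over rows, columns and ones
-/

open Finset BigOperators
open scoped Classical

namespace Pool.Agent.LCS13

noncomputable section

variable {Ωa Ωb : Type} [Fintype Ωa] [Fintype Ωb]

/-- Expectation over rows, columns and ones. -/
def E2 (ρ : ℝ) (N : ℕ) (F : Ωa → Ωb → Finset ℕ → ℝ) : ℝ :=
  𝔼 a, 𝔼 b, ES ρ (range N) (F a b)

variable {ρ : ℝ} {N : ℕ} {F G : Ωa → Ωb → Finset ℕ → ℝ}

theorem E2_add : E2 ρ N (fun a b A => F a b A + G a b A) = E2 ρ N F + E2 ρ N G := by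
  simp only [E2, ES_add, Finset.expect_add_distrib]

theorem E2_sub : E2 ρ N (fun a b A => F a b A - G a b A) = E2 ρ N F - E2 ρ N G := by
  simp only [E2, ES_sub, Finset.expect_sub_distrib]

theorem E2_mul_left (c : ℝ) : E2 ρ N (fun a b A => c * F a b A) = c * E2 ρ N F := by
  simp only [E2, ES_mul_left, Finset.mul_expect]

theorem E2_mul_right (c : ℝ) : E2 ρ N (fun a b A => F a b A * c) = E2 ρ N F * c := by
  simp only [E2, ES_mul_right, Finset.expect_mul]

theorem E2_sum {ι : Type*} (s : Finset ι) (H : ι → Ωa → Ωb → Finset ℕ → ℝ) :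
    E2 ρ N (fun a b A => ∑ x ∈ s, H x a b A) = ∑ x ∈ s, E2 ρ N (H x) := by
  simp only [E2, ES_sum, Finset.expect_sum_comm]

theorem E2_nonneg (h0 : 0 ≤ ρ) (h1 : ρ ≤ 1) (h : ∀ a b, ∀ A ⊆ range N, 0 ≤ F a b A) :
    0 ≤ E2 ρ N F :=
  Finset.expect_nonneg fun a _ => Finset.expect_nonneg fun b _ => ES_nonneg h0 h1 (h a b)

theorem E2_mono (h0 : 0 ≤ ρ) (h1 : ρ ≤ 1) (h : ∀ a b, ∀ A ⊆ range N, F a b A ≤ G a b A) :
    E2 ρ N F ≤ E2 ρ N G :=
  Finset.expect_le_expect fun a _ => Finset.expect_le_expect fun b _ => ES_mono h0 h1 (h a b)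

theorem E2_mono' (h : ∀ a b, ES ρ (range N) (F a b) ≤ ES ρ (range N) (G a b)) :
    E2 ρ N F ≤ E2 ρ N G :=
  Finset.expect_le_expect fun a _ => Finset.expect_le_expect fun b _ => h a b

theorem E2_congr (h : ∀ a b, ∀ A ⊆ range N, F a b A = G a b A) : E2 ρ N F = E2 ρ N G := by
  unfold E2
  refine Finset.expect_congr rfl fun a _ => Finset.expect_congr rfl fun b _ => ES_congr (h a b)

theorem E2_const [Nonempty Ωa] [Nonempty Ωb] (c : ℝ) :
    E2 (Ωa := Ωa) (Ωb := Ωb) ρ N (fun _ _ _ => c) = c := by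
  simp only [E2, ES_const, Fintype.expect_const]

theorem E2_swap : 𝔼 b, 𝔼 a, ES ρ (range N) (F a b) = E2 ρ N F := by
  unfold E2
  rw [Finset.expect_comm]

/-- Columns innermost. -/
theorem E2_inner : E2 ρ N F = 𝔼 a, ES ρ (range N) (fun A => 𝔼 b, F a b A) := by
  unfold E2
  refine Finset.expect_congr rfl fun a _ => ?_
  rw [ES_expect]

/-- Comparison with the columns innermost. -/
theorem E2_mono_inner (h0 : 0 ≤ ρ) (h1 : ρ ≤ 1)
    (h : ∀ a, ∀ A ⊆ range N, 𝔼 b, F a b A ≤ 𝔼 b, G a b A) : E2 ρ N F ≤ E2 ρ N G := by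
  rw [E2_inner, E2_inner]
  exact Finset.expect_le_expect fun a _ => ES_mono h0 h1 (h a)

/-! ### Resampling one letter of an iid word -/

/-- The exchange of the letter `j` with a fresh letter. -/
def exch {N k : ℕ} (j : Fin N) : (Fin N → Fin k) × Fin k ≃ (Fin N → Fin k) × Fin k where
  toFun p := (Function.update p.1 j p.2, p.1 j)
  invFun p := (Function.update p.1 j p.2, p.1 j)
  left_inv p := by
    rcases p with ⟨b, y⟩
    simp
  right_inv p := by
    rcases p with ⟨b, y⟩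
    simp

theorem expect_exch {N k : ℕ} (j : Fin N) (F : (Fin N → Fin k) → Fin k → ℝ) :
    𝔼 b : Fin N → Fin k, 𝔼 y : Fin k, F (Function.update b j y) (b j) =
      𝔼 b : Fin N → Fin k, 𝔼 y : Fin k, F b y := by
  have h := Fintype.expect_equiv (exch j) (fun p => F (Function.update p.1 j p.2) (p.1 j))
    (fun p => F p.1 p.2) (fun p => rfl)
  rw [← Finset.univ_product_univ, Finset.expect_product, Finset.expect_product] at h
  exact h

/-- Counting one letter. -/
theorem expect_ind_mem {k : ℕ} (S : Finset (Fin k)) :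
    𝔼 y : Fin k, ind (y ∈ S) = (#S : ℝ) / k := by
  rw [Fintype.expect_eq_sum_div_card, Fintype.card_fin]
  have : ∑ y : Fin k, ind (y ∈ S) = (#S : ℝ) := by
    have h1 : ∀ y : Fin k, ind (y ∈ S) = if y ∈ S then (1 : ℝ) else 0 := by
      intro y
      by_cases hy : y ∈ S
      · rw [ind_true hy, if_pos hy]
      · rw [ind_false hy, if_neg hy]
    rw [Finset.sum_congr rfl fun y _ => h1 y, Finset.sum_ite_mem, Finset.univ_inter]
    simp
  rw [this]

end

end Pool.Agent.LCS13
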