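import Pool.Agent.Work.MP_bec1e1_pr_h13.Interface
import Pool.Agent.Work.MP_bec1e1_pr_h13.LP
import Pool.Agent.Work.MP_bec1e1_pr_h13.ES
import Pool.Agent.Work.MP_bec1e1_pr_h13.SYS

/-!
# Block A, part 1: resampling one column
-/

open Finset BigOperators
open scoped Classical

namespace Pool.Agent.LCS13

/-- The paths which do not use the column `j`. -/
theorem mt_congr_of {a b b' : ℕ → Option ℕ} {j : ℕ} (hbb : ∀ i, i ≠ j → b i = b' i) (x y : ℕ)
    (hy : y ≠ j) : mt a b x y ↔ mt a b' x y := by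
  unfold mt
  rw [hbb y hy]

theorem lp_congr_right {a b b' : ℕ → Option ℕ} {j : ℕ} (hbb : ∀ i, i ≠ j → b i = b' i)
    (i c0 r c : ℕ) (hc : j < c0 ∨ c0 + c ≤ j) :
    lp (mt a b) i c0 r c = lp (mt a b') i c0 r c := by
  apply lp_congr
  intro i' j' _ _ h3 h4
  exact mt_congr_of hbb i' j' (by omega)

/-- Cases for the profile after changing the column `j`. -/
theorem uu_change_cases {a b b' : ℕ → Option ℕ} {j : ℕ} (hbb : ∀ i, i ≠ j → b i = b' i)
    (t g : ℕ) : uu a b' t g ≤ uu a b t g ∨ ∃ r < t, mt a b' r j ∧ j + 1 ≤ g ∧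
      uu a b' t g = lp (mt a b) 0 0 r j + 1 + lp (mt a b) (r + 1) (j + 1) (t - r - 1) (g - j - 1) := by
  by_cases hg : g ≤ j
  · left
    unfold uu
    rw [lp_congr_right hbb 0 0 t g (Or.inr (by omega))]
  · obtain ⟨c2, hc2⟩ : ∃ c2, g = j + 1 + c2 := ⟨g - j - 1, by omega⟩
    subst hc2
    rcases lp_col_cases (mt a b') 0 0 t j c2 with h | ⟨r, hr, hm, h⟩
    · left
      unfold uu
      rw [h]
      have : lp (fun x y => mt a b' x y ∧ y ≠ 0 + j) 0 0 t (j + 1 + c2) ≤
          lp (mt a b) 0 0 t (j + 1 + c2) := by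
        apply lp_mono_m
        intro x y _ _ _ _ hxy
        exact (mt_congr_of hbb x y (by simpa using hxy.2)).2 hxy.1
      exact_mod_cast this
    · right
      refine ⟨r, hr, by simpa using hm, by omega, ?_⟩
      unfold uu
      rw [h]
      simp only [zero_add]
      have e : j + 1 + c2 - j - 1 = c2 := by omega
      rw [e, lp_congr_right hbb 0 0 r j (Or.inr (by omega)),
        lp_congr_right hbb (r + 1) (j + 1) (t - r - 1) c2 (Or.inl (by omega))]
      push_cast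
      ring

/-- RES-A. -/
theorem resA {a b b' : ℕ → Option ℕ} {t N H j : ℕ} {A : Finset ℕ}
    (hbb : ∀ i, i ≠ j → b i = b' i) (hj : j ∈ JJ (uu a b t) A 0 N)
    (hold : ¬ Old a b t H A N j) (hy : ∀ r, t ≤ r + H → r < t → ¬ mt a b' r j) :
    MM (uu a b' t) A 0 N = MM (uu a b t) A 0 N ∧ j ∈ JJ (uu a b' t) A 0 N ∧
      (∀ i < j, (i ∈ JJ (uu a b' t) A 0 N ↔ i ∈ JJ (uu a b t) A 0 N)) := by
  have hj' := mem_JJ'.1 hj
  obtain ⟨⟨_, hjN⟩, hjA, hX⟩ := hj'
  have hu : ∀ g ≤ j, uu a b' t g = uu a b t g := by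
    intro g hg
    exact (uu_congr (fun _ _ => rfl) (fun y hy => hbb y (by omega))).symm
  have hXX : ∀ g ≤ j, XX (uu a b' t) A 0 g = XX (uu a b t) A 0 g := by
    intro g hg
    unfold XX
    rw [hu g hg, hu 0 (by omega)]
  have hM : MM (uu a b' t) A 0 N = MM (uu a b t) A 0 N := by
    apply MM_eq_of (g := j) (by omega) (by omega)
    · rw [hXX j le_rfl, hX]
    · intro g _ hgN
      have hle := XX_le_MM (u := uu a b t) (A := A) (Nat.zero_le g) hgN
      rcases uu_change_cases (a := a) hbb t g with h | ⟨r, hr, hm, hjg, h⟩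
      · unfold XX at hle ⊢
        rw [hu 0 (by omega)]
        omega
      · have hold' : ¬ (r + H < t ∧ j + 1 ≤ g ∧ g ≤ N ∧ (MM (uu a b t) A 0 N : ℤ) ≤
            lp (mt a b) 0 0 r j + lp (mt a b) (r + 1) (j + 1) (t - r - 1) (g - j - 1)
              - cnt A 0 g) := fun hh => hold ⟨r, g, hh⟩
        have hrH : r + H < t := by
          by_contra hc
          exact hy r (by omega) hr hm
        have h2 : ¬ ((MM (uu a b t) A 0 N : ℤ) ≤
            lp (mt a b) 0 0 r j + lp (mt a b) (r + 1) (j + 1) (t - r - 1) (g - j - 1)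
              - cnt A 0 g) := fun hh => hold' ⟨hrH, hjg, hgN, hh⟩
        unfold XX
        rw [h, uu_zero]
        push_cast at h2 ⊢
        omega
  refine ⟨hM, ?_, ?_⟩
  · rw [mem_JJ']
    exact ⟨⟨by omega, hjN⟩, hjA, by rw [hXX j le_rfl, hX, hM]⟩
  · intro i hi
    rw [mem_JJ', mem_JJ', hXX i hi.le, hM]

/-- `Old` does not see the letter of the column. -/
theorem old_congr {a b b' : ℕ → Option ℕ} {t N H j : ℕ} {A : Finset ℕ}
    (hbb : ∀ i, i ≠ j → b i = b' i) (hM : MM (uu a b' t) A 0 N = MM (uu a b t) A 0 N)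
    (hold : ¬ Old a b t H A N j) : ¬ Old a b' t H A N j := by
  rintro ⟨f, g, h1, h2, h3, h4⟩
  apply hold
  refine ⟨f, g, h1, h2, h3, ?_⟩
  rw [hM] at h4
  rw [lp_congr_right hbb 0 0 f j (Or.inr (by omega)),
    lp_congr_right hbb (f + 1) (j + 1) (t - f - 1) (g - j - 1) (Or.inl (by omega))]
  exact h4

end Pool.Agent.LCS13
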