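import Pool.Agent.Work.MP_bec1e1_pr_helper73.E2

/-!
# Block B, part 1: resampling one letter of a segment
-/

open Finset BigOperators
open scoped Classical

namespace Pool.Agent.LCS13

noncomputable section

/-- RES-B. -/
theorem resB {a b b' : ℕ → Option ℕ} {t N i j : ℕ} {A : Finset ℕ}
    (hbb : ∀ x, x ≠ j → b x = b' x) (hi : i ∈ JJ (uu a b' t) A 0 N)
    (hj : j ∈ JJ (uu a b' t) A 0 N) (hij : i < j) :
    (i ∈ JJ (uu a b t) A 0 N ∧ j ∈ JJ (uu a b t) A 0 N) ∨
    (i ∈ J1 (uu a b t) A 0 N ∧ j ∈ J1 (uu a b t) A 0 N) := by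
  obtain ⟨⟨_, hiN⟩, hiA, hXi⟩ := mem_JJ'.1 hi
  obtain ⟨⟨_, hjN⟩, hjA, hXj⟩ := mem_JJ'.1 hj
  have hu : ∀ g ≤ j, uu a b' t g = uu a b t g := by
    intro g hg
    exact (uu_congr (fun _ _ => rfl) (fun y hy => hbb y (by omega))).symm
  have hXX : ∀ g ≤ j, XX (uu a b t) A 0 g = XX (uu a b' t) A 0 g := by
    intro g hg
    unfold XX
    rw [hu g hg, hu 0 (by omega)]
  have hle : ∀ g, XX (uu a b t) A 0 g ≤ XX (uu a b' t) A 0 g + 1 := by
    intro g
    unfold XX
    rw [uu_zero, uu_zero]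
    have h : lp (mt a b) 0 0 t g ≤ lp (mt a b') 0 0 t g + 1 := by
      apply lp_col_change j
      intro x y hy
      unfold mt
      rw [hbb y hy]
    have h' : uu a b t g ≤ uu a b' t g + 1 := by
      unfold uu
      exact_mod_cast h
    omega
  have hMlo : (MM (uu a b' t) A 0 N : ℤ) ≤ MM (uu a b t) A 0 N := by
    rw [← hXj, ← hXX j le_rfl]
    exact XX_le_MM (Nat.zero_le _) hjN.le
  have hMhi : (MM (uu a b t) A 0 N : ℤ) ≤ MM (uu a b' t) A 0 N + 1 := by
    obtain ⟨g, _, hg, he⟩ := exists_MM (u := uu a b t) (A := A) (Nat.zero_le N)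
    rw [← he]
    have h1 := hle g
    have h2 := XX_le_MM (u := uu a b' t) (A := A) (Nat.zero_le g) hg
    omega
  rcases (by omega : (MM (uu a b t) A 0 N : ℤ) = MM (uu a b' t) A 0 N ∨
    (MM (uu a b t) A 0 N : ℤ) = MM (uu a b' t) A 0 N + 1) with h | h
  · left
    rw [mem_JJ', mem_JJ', hXX i hij.le, hXX j le_rfl, h]
    exact ⟨⟨⟨by omega, hiN⟩, hiA, hXi⟩, ⟨⟨by omega, hjN⟩, hjA, hXj⟩⟩
  · right
    rw [mem_J1, mem_J1, hXX i hij.le, hXX j le_rfl, h]
    have hall : ∀ g ≤ j, XX (uu a b t) A 0 g ≤ (MM (uu a b' t) A 0 N : ℤ) + 1 - 1 := by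
      intro g hg
      rw [hXX g hg]
      have := XX_le_MM (u := uu a b' t) (A := A) (Nat.zero_le g) (hg.trans hjN.le)
      omega
    refine ⟨⟨⟨by omega, hiN⟩, hiA, by omega, fun g _ hg => hall g (by omega)⟩,
      ⟨⟨by omega, hjN⟩, hjA, by omega, fun g _ hg => hall g hg⟩⟩

variable {s K R : ℕ}

theorem sw_ltA (ω : Fin R → Seg s K) {p : ℕ} (h : p / s < R ∧ p % s < s) :
    sw ω p = some (((ω ⟨p / s, h.1⟩).1 ⟨p % s, h.2⟩ : ℕ) + (p / s % 2) * K) := by
  unfold sw
  rw [dif_pos h]

theorem sw_dom {p : ℕ} (hp : p < R * s) : p / s < R ∧ p % s < s := by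
  have hs : 0 < s := by
    rcases Nat.eq_zero_or_pos s with h | h
    · subst h; simp at hp
    · exact h
  exact ⟨Nat.div_lt_of_lt_mul (by rwa [mul_comm]), Nat.mod_lt _ hs⟩

/-- Equal letters are far apart. -/
theorem sw_far (ω : Fin R → Seg s K) {i j : ℕ} (hij : i < j) (hj : j < R * s)
    (h : sw ω i = sw ω j) : i + s ≤ j := by
  have hi : i < R * s := by omega
  have di := sw_dom hi
  have dj := sw_dom hj
  rw [sw_ltA ω di, sw_ltA ω dj] at h
  have h1 : ((ω ⟨i / s, di.1⟩).1 ⟨i % s, di.2⟩ : ℕ) + (i / s % 2) * K =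
    ((ω ⟨j / s, dj.1⟩).1 ⟨j % s, dj.2⟩ : ℕ) + (j / s % 2) * K := by simpa using h
  have b1 : ((ω ⟨i / s, di.1⟩).1 ⟨i % s, di.2⟩ : ℕ) < K := Fin.is_lt _
  have b2 : ((ω ⟨j / s, dj.1⟩).1 ⟨j % s, dj.2⟩ : ℕ) < K := Fin.is_lt _
  have hle : i / s ≤ j / s := Nat.div_le_div_right hij.le
  have ei := Nat.div_add_mod i s
  have ej := Nat.div_add_mod j s
  have hpar : i / s % 2 = j / s % 2 := by
    rcases Nat.mod_two_eq_zero_or_one (i / s) with p1 | p1 <;>
      rcases Nat.mod_two_eq_zero_or_one (j / s) with p2 | p2 <;>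
      rw [p1, p2] at h1 ⊢ <;> omega
  have hval : ((ω ⟨i / s, di.1⟩).1 ⟨i % s, di.2⟩ : ℕ) =
    ((ω ⟨j / s, dj.1⟩).1 ⟨j % s, dj.2⟩ : ℕ) := by rw [hpar] at h1; omega
  by_cases he : i / s = j / s
  · exfalso
    have e1 : (⟨i / s, di.1⟩ : Fin R) = ⟨j / s, dj.1⟩ := Fin.ext he
    rw [e1] at hval
    have h2 : (ω ⟨j / s, dj.1⟩).1 ⟨i % s, di.2⟩ = (ω ⟨j / s, dj.1⟩).1 ⟨j % s, dj.2⟩ :=
      Fin.ext hval
    have h3 := (ω ⟨j / s, dj.1⟩).2 h2
    have h4 : i % s = j % s := by simpa [Fin.ext_iff] using h3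
    rw [he, h4] at ei
    omega
  · have h5 : i / s + 2 ≤ j / s := by omega
    have h6 : s * (i / s + 2) ≤ s * (j / s) := Nat.mul_le_mul_left s h5
    have h7 := di.2
    have h8 : s * (i / s + 2) = s * (i / s) + s + s := by ring
    omega

/-- The letter `y` can be put at the place `p` of the segment `r`. -/
def okw (ω : Fin R → Seg s K) (r : Fin R) (p : Fin s) (y : Fin K) : Prop :=
  ∀ q, q ≠ p → (ω r).1 q ≠ y

theorem inj_update {v : Seg s K} {p : Fin s} {y : Fin K} (h : ∀ q, q ≠ p → v.1 q ≠ y) :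
    Function.Injective (Function.update v.1 p y) := by
  intro x1 x2 hx
  by_cases h1 : x1 = p <;> by_cases h2 : x2 = p
  · rw [h1, h2]
  · subst h1
    rw [Function.update_self, Function.update_of_ne h2] at hx
    exact absurd hx.symm (h x2 h2)
  · subst h2
    rw [Function.update_self, Function.update_of_ne h1] at hx
    exact absurd hx (h x1 h1)
  · rw [Function.update_of_ne h1, Function.update_of_ne h2] at hx
    exact v.2 hx

/-- Replace the letter. -/
def repw (ω : Fin R → Seg s K) (r : Fin R) (p : Fin s) (y : Fin K) : Fin R → Seg s K :=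
  if h : okw ω r p y then Function.update ω r ⟨Function.update (ω r).1 p y, inj_update h⟩ else ω

theorem repw_pos {ω : Fin R → Seg s K} {r : Fin R} {p : Fin s} {y : Fin K}
    (h : okw ω r p y) : repw ω r p y =
      Function.update ω r ⟨Function.update (ω r).1 p y, inj_update h⟩ := by
  unfold repw
  rw [dif_pos h]

theorem repw_back {ω : Fin R → Seg s K} {r : Fin R} {p : Fin s} {y : Fin K}
    (h : okw ω r p y) : okw (repw ω r p y) r p ((ω r).1 p) ∧
      repw (repw ω r p y) r p ((ω r).1 p) = ω ∧ ((repw ω r p y) r).1 p = y := by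
  have h1 : okw (repw ω r p y) r p ((ω r).1 p) := by
    intro q hq
    rw [repw_pos h, Function.update_self]
    simp only [Function.update_of_ne hq]
    exact fun he => hq ((ω r).2 he)
  refine ⟨h1, ?_, ?_⟩
  · rw [repw_pos h1]
    funext r'
    by_cases hr : r' = r
    · subst hr
      rw [Function.update_self]
      apply Subtype.ext
      funext q
      by_cases hq : q = p
      · subst hq
        simp
      · simp only [Function.update_of_ne hq]
        rw [repw_pos h, Function.update_self]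
        simp only [Function.update_of_ne hq]
    · rw [Function.update_of_ne hr, repw_pos h, Function.update_of_ne hr]
  · rw [repw_pos h, Function.update_self]
    simp

/-- The exchange as a permutation. -/
def exchB (r : Fin R) (p : Fin s) :
    (Fin R → Seg s K) × Fin K → (Fin R → Seg s K) × Fin K := fun x =>
  if okw x.1 r p x.2 then (repw x.1 r p x.2, (x.1 r).1 p) else x

theorem exchB_invol (r : Fin R) (p : Fin s) :
    Function.Involutive (exchB (K := K) r p) := by
  rintro ⟨ω, y⟩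
  by_cases h : okw ω r p y
  · obtain ⟨h1, h2, h3⟩ := repw_back h
    have e1 : exchB r p (ω, y) = (repw ω r p y, (ω r).1 p) := by
      unfold exchB
      rw [if_pos h]
    rw [e1]
    unfold exchB
    simp only
    rw [if_pos h1, h2, h3]
  · have e1 : exchB r p (ω, y) = (ω, y) := by
      unfold exchB
      rw [if_neg h]
    rw [e1, e1]

theorem expect_exchB (r : Fin R) (p : Fin s) (Φ : (Fin R → Seg s K) → ℝ) :
    𝔼 ω : Fin R → Seg s K, 𝔼 y : Fin K, ind (okw ω r p y) * Φ (repw ω r p y) =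
      𝔼 ω : Fin R → Seg s K, 𝔼 y : Fin K, ind (okw ω r p y) * Φ ω := by
  have h := Fintype.expect_equiv (Function.Involutive.toPerm _ (exchB_invol (K := K) r p))
    (fun x => ind (okw x.1 r p x.2) * Φ (repw x.1 r p x.2))
    (fun x => ind (okw x.1 r p x.2) * Φ x.1) ?_
  · rw [← Finset.univ_product_univ, Finset.expect_product, Finset.expect_product] at h
    exact h
  · rintro ⟨ω, y⟩
    by_cases hok : okw ω r p y
    · obtain ⟨h1, _, _⟩ := repw_back hok
      have e1 : Function.Involutive.toPerm _ (exchB_invol (K := K) r p) (ω, y) =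
          (repw ω r p y, (ω r).1 p) := by
        change exchB r p (ω, y) = _
        unfold exchB
        rw [if_pos hok]
      rw [e1]
      simp only
      rw [ind_true hok, ind_true h1]
    · have e1 : Function.Involutive.toPerm _ (exchB_invol (K := K) r p) (ω, y) = (ω, y) := by
        change exchB r p (ω, y) = _
        unfold exchB
        rw [if_neg hok]
      rw [e1]
      simp only
      rw [ind_false hok, zero_mul, zero_mul]

/-- Number of admissible letters. -/
theorem expect_ok (ω : Fin R → Seg s K) (r : Fin R) (p : Fin s) :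
    𝔼 y : Fin K, ind (okw ω r p y) = ((K : ℝ) - s + 1) / K := by
  have h1 : ∀ y : Fin K, (okw ω r p y ↔ y ∈ ((univ.erase p).image (ω r).1)ᶜ) := by
    intro y
    rw [Finset.mem_compl, Finset.mem_image]
    unfold okw
    constructor
    · rintro h ⟨q, hq, he⟩
      exact h q (Finset.ne_of_mem_erase hq) he
    · intro h q hq he
      exact h ⟨q, Finset.mem_erase.2 ⟨hq, Finset.mem_univ _⟩, he⟩
  have h2 : 𝔼 y : Fin K, ind (okw ω r p y) =
      𝔼 y : Fin K, ind (y ∈ ((univ.erase p).image (ω r).1)ᶜ) := by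
    refine Finset.expect_congr rfl fun y _ => ?_
    rw [h1 y]
  rw [h2, expect_ind_mem, Finset.card_compl, Finset.card_image_of_injective _ (ω r).2,
    Finset.card_erase_of_mem (Finset.mem_univ p), Finset.card_univ, Fintype.card_fin,
    Fintype.card_fin]
  have hs : 1 ≤ s := Nat.one_le_iff_ne_zero.2 (fun h => by subst h; exact p.elim0)
  have hsK : s ≤ K := by
    have := Fintype.card_le_of_injective _ (ω r).2
    simpa using this
  congr 1
  rw [Nat.cast_sub (by omega), Nat.cast_sub hs]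
  push_cast
  ring

/-- The word after the exchange. -/
theorem sw_repw_self {ω : Fin R → Seg s K} {j : ℕ} (hj : j / s < R ∧ j % s < s) {y : Fin K}
    (h : okw ω ⟨j / s, hj.1⟩ ⟨j % s, hj.2⟩ y) :
    sw (repw ω ⟨j / s, hj.1⟩ ⟨j % s, hj.2⟩ y) j = some ((y : ℕ) + (j / s % 2) * K) := by
  rw [sw_ltA _ hj, (repw_back h).2.2]

theorem sw_repw_ne {ω : Fin R → Seg s K} {j : ℕ} (hj : j / s < R ∧ j % s < s) {y : Fin K}
    (h : okw ω ⟨j / s, hj.1⟩ ⟨j % s, hj.2⟩ y) {x : ℕ} (hx : x ≠ j) :
    sw ω x = sw (repw ω ⟨j / s, hj.1⟩ ⟨j % s, hj.2⟩ y) x := by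
  by_cases hxd : x / s < R ∧ x % s < s
  · rw [sw_ltA _ hxd, sw_ltA _ hxd, repw_pos h]
    by_cases hr : x / s = j / s
    · have hp : x % s ≠ j % s := by
        intro he
        apply hx
        rw [← Nat.div_add_mod x s, ← Nat.div_add_mod j s, hr, he]
      have e1 : (⟨x / s, hxd.1⟩ : Fin R) = ⟨j / s, hj.1⟩ := Fin.ext hr
      rw [e1, Function.update_self]
      simp only
      rw [Function.update_of_ne]
      intro he
      exact hp (by simpa [Fin.ext_iff] using he)
    · rw [Function.update_of_ne]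
      intro he
      exact hr (by simpa [Fin.ext_iff] using he)
  · unfold sw
    rw [dif_neg hxd, dif_neg hxd]

end

end Pool.Agent.LCS13
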